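import Pool.Agent.Helper58.Vol.Riesz2

/-!
# The combinatorial sum
-/

open Finset BigOperators

namespace Pool.Agent.Helper58.Vol

lemma sum_big_powerset {α : Type*} [DecidableEq α] (B : Finset α) (x : ℝ) (hx : 0 ≤ x) : 
    ∑ T ∈ B.powerset.filter (fun T => 2 ≤ T.card), x ^ T.card ≤ (x * B.card) ^ 2 * Real.exp (x * B.card) := by
  have h1 : ∑ T ∈ B.powerset, x ^ T.card = (1 + x) ^ B.card := by
    have := Finset.prod_one_add (f := fun _ : α => x) B
    rw [Finset.prod_const] at this
    rw [this]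
    apply Finset.sum_congr rfl
    intro T _
    rw [Finset.prod_const]
  have h0 : B.powerset.filter (fun T => ¬ 2 ≤ T.card ∧ T.card = 0) = {∅} := by
    ext T
    rw [Finset.mem_filter, Finset.mem_singleton, Finset.mem_powerset]
    constructor
    · intro h; exact Finset.card_eq_zero.mp h.2.2
    · rintro rfl; simp
  have h2 : B.powerset.filter (fun T => ¬ 2 ≤ T.card ∧ ¬ T.card = 0) = B.powersetCard 1 := by
    ext T
    rw [Finset.mem_filter, Finset.mem_powersetCard, Finset.mem_powerset]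
    constructor
    · intro h; exact ⟨h.1, by omega⟩
    · intro h; exact ⟨h.1, by omega, by omega⟩
  have h3 : ∑ T ∈ B.powerset.filter (fun T => 2 ≤ T.card), x ^ T.card = (1 + x) ^ B.card - 1 - x * B.card := by
    rw [← h1, ← Finset.sum_filter_add_sum_filter_not B.powerset (fun T => 2 ≤ T.card),
      ← Finset.sum_filter_add_sum_filter_not (B.powerset.filter (fun T => ¬ 2 ≤ T.card)) (fun T => T.card = 0), 
      Finset.filter_filter, Finset.filter_filter, h0, h2, Finset.powersetCard_one, Finset.sum_map]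
    simp
    ring
  rw [h3]
  set z := x * B.card with hz
  have hz0 : 0 ≤ z := by positivity
  have h4 : (1 + x) ^ B.card ≤ Real.exp z := by
    rw [hz, mul_comm, Real.exp_nat_mul]
    apply pow_le_pow_left₀ (by linarith)
    linarith [Real.add_one_le_exp x]
  have h5 : Real.exp z - 1 ≤ z * Real.exp z := by
    have h6 := Real.add_one_le_exp (-z)
    have h7 : Real.exp (-z) * Real.exp z = 1 := by rw [← Real.exp_add]; simp
    nlinarith [Real.exp_pos z]
  have h8 : Real.exp z - 1 - z ≤ z ^ 2 * Real.exp z := by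
    have h9 : z * Real.exp z - z ≤ z * (z * Real.exp z) := by nlinarith
    nlinarith
  linarith

/-- `θ = 2^{-1/2}` -/
noncomputable def th : ℝ := Real.sqrt (1 / 2)

lemma th_pos : 0 < th := Real.sqrt_pos.mpr (by norm_num)

lemma th_sq : th ^ 2 = 1 / 2 := Real.sq_sqrt (by norm_num)

lemma th_lt_one : th < 1 := by
  have := th_sq
  nlinarith [th_pos]

lemma sum_geom_le (N : ℕ) : ∑ c ∈ range N, th ^ c ≤ (1 - th)⁻¹ := by
  have h := geom_sum_mul_neg th N
  have h1 : 0 < 1 - th := by linarith [th_lt_one]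
  rw [inv_eq_one_div, le_div_iff₀ h1, h]
  linarith [pow_pos th_pos N]

lemma sum_dist_le (n b : ℕ) : 
    ∑ a ∈ range (n + 1), th ^ ((a - b) + (b - a)) ≤ 2 * (1 - th)⁻¹ := by
  rw [← Finset.sum_filter_add_sum_filter_not _ (fun a => a < b)]
  have h1 : ∑ a ∈ (range (n + 1)).filter (fun a => a < b), th ^ ((a - b) + (b - a)) ≤ (1 - th)⁻¹ := by
    calc ∑ a ∈ (range (n + 1)).filter (fun a => a < b), th ^ ((a - b) + (b - a)) 
        = ∑ c ∈ ((range (n + 1)).filter (fun a => a < b)).image (fun a => b - a), th ^ c := by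
          rw [Finset.sum_image]
          · apply Finset.sum_congr rfl
            intro a ha
            rw [Finset.mem_filter] at ha
            rw [Nat.sub_eq_zero_of_le ha.2.le, zero_add]
          · intro a ha a' ha' he
            rw [Finset.mem_coe, Finset.mem_filter] at ha ha'
            simp only at he
            omega
      _ ≤ ∑ c ∈ range (b + 1), th ^ c := by
          apply Finset.sum_le_sum_of_subset_of_nonneg
          · intro c hc
            rw [Finset.mem_image] at hc
            obtain ⟨a, _, rfl⟩ := hc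
            rw [Finset.mem_range]
            omega
          · intro c _ _
            exact (pow_pos th_pos c).le
      _ ≤ (1 - th)⁻¹ := sum_geom_le _
  have h2 : ∑ a ∈ (range (n + 1)).filter (fun a => ¬ a < b), th ^ ((a - b) + (b - a)) ≤ (1 - th)⁻¹ := by
    calc ∑ a ∈ (range (n + 1)).filter (fun a => ¬ a < b), th ^ ((a - b) + (b - a)) 
        = ∑ c ∈ ((range (n + 1)).filter (fun a => ¬ a < b)).image (fun a => a - b), th ^ c := by
          rw [Finset.sum_image]
          · apply Finset.sum_congr rfl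
            intro a ha
            rw [Finset.mem_filter] at ha
            rw [Nat.sub_eq_zero_of_le (not_lt.mp ha.2), add_zero]
          · intro a ha a' ha' he
            rw [Finset.mem_coe, Finset.mem_filter] at ha ha'
            simp only at he
            omega
      _ ≤ ∑ c ∈ range (n + 1), th ^ c := by
          apply Finset.sum_le_sum_of_subset_of_nonneg
          · intro c hc
            rw [Finset.mem_image] at hc
            obtain ⟨a, ha, rfl⟩ := hc
            rw [Finset.mem_filter, Finset.mem_range] at ha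
            rw [Finset.mem_range]
            omega
          · intro c _ _
            exact (pow_pos th_pos c).le
      _ ≤ (1 - th)⁻¹ := sum_geom_le _
  linarith

/-- the exponent `∑_j (m_j - t_j)^+` -/
def Aex {d : ℕ} (m t : Fin d → ℕ) : ℕ := ∑ j, (m j - t j)

lemma Aex_eq {d n r : ℕ} {m t : Fin d → ℕ} (hm : ∑ j, m j = n + r) (ht : ∑ j, t j = n) : 
    2 * Aex m t = r + ∑ j, ((m j - t j) + (t j - m j)) := by
  unfold Aex
  have h : ∑ j, (m j - t j) + ∑ j, t j = ∑ j, m j + ∑ j, (t j - m j) := by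
    rw [← Finset.sum_add_distrib, ← Finset.sum_add_distrib]
    apply Finset.sum_congr rfl
    intro j _
    omega
  rw [Finset.sum_add_distrib]
  omega

lemma half_pow_Aex {d n r : ℕ} {m t : Fin d → ℕ} (hm : ∑ j, m j = n + r) (ht : ∑ j, t j = n) : 
    (1 / 2 : ℝ) ^ Aex m t = th ^ r * ∏ j, th ^ ((m j - t j) + (t j - m j)) := by
  rw [← th_sq, ← pow_mul, Aex_eq hm ht, pow_add, Finset.prod_pow_eq_pow_sum]

lemma eta_lt_one : th * Real.exp (1 / 8) < 1 := by
  have h1 : (th * Real.exp (1 / 8)) ^ 8 < 1 := by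
    rw [mul_pow, ← Real.exp_nat_mul]
    have e1 : th ^ 8 = 1 / 16 := by
      have : th ^ 8 = (th ^ 2) ^ 4 := by ring
      rw [this, th_sq]; norm_num
    rw [e1]
    have e2 : ((8 : ℕ) : ℝ) * (1 / 8) = 1 := by norm_num
    rw [e2]
    have := Real.exp_one_lt_d9
    linarith
  have h0 : 0 ≤ th * Real.exp (1 / 8) := by have := th_pos; positivity
  exact (pow_lt_one_iff_of_nonneg h0 (by norm_num)).mp h1

lemma exists_K (k : ℕ) : ∃ K : ℝ, 0 < K ∧ ∀ r : ℕ, ((r : ℝ) + 1) ^ k * (th * Real.exp (1 / 8)) ^ r ≤ K := by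
  set η := th * Real.exp (1 / 8) with hη
  have hη0 : 0 < η := by have := th_pos; positivity
  have h := tendsto_pow_const_mul_const_pow_of_abs_lt_one k (r := η) 
    (by rw [abs_of_pos hη0]; exact eta_lt_one)
  obtain ⟨K, hK⟩ := h.bddAbove_range
  refine ⟨(|K| + 1) * η⁻¹, by positivity, fun r => ?_⟩
  have h1 : ((r + 1 : ℕ) : ℝ) ^ k * η ^ (r + 1) ≤ K := hK ⟨r + 1, rfl⟩
  have h2 : ((r : ℝ) + 1) ^ k * η ^ r = (((r + 1 : ℕ) : ℝ) ^ k * η ^ (r + 1)) * η⁻¹ := by
    push_cast
    rw [pow_succ]
    field_simp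
  rw [h2]
  apply mul_le_mul_of_nonneg_right _ (by positivity)
  exact h1.trans ((le_abs_self K).trans (by linarith))

/-- coordinatewise maximum -/
noncomputable def mx {d : ℕ} (T : Finset (Fin d → ℕ)) : Fin d → ℕ := fun j => T.sup (fun s => s j)

lemma le_mx {d : ℕ} {T : Finset (Fin d → ℕ)} {s : Fin d → ℕ} (hs : s ∈ T) (j : Fin d) : s j ≤ mx T j := 
  Finset.le_sup (f := fun s : Fin d → ℕ => s j) hs

lemma mx_le {d n : ℕ} {T : Finset (Fin d → ℕ)} (hT : T ⊆ idx d n) (j : Fin d) : mx T j ≤ n :=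
  Finset.sup_le (fun _ hs => idx_le (hT hs) j)

lemma lt_sum_mx {d n : ℕ} {T : Finset (Fin d → ℕ)} (hT : T ∈ big d n) : n < ∑ j, mx T j := by
  have hsub := big_subset hT
  unfold big at hT
  rw [Finset.mem_filter] at hT
  obtain ⟨s, hs, s', hs', hne⟩ := Finset.one_lt_card.mp (by omega : 1 < T.card)
  by_contra hcon
  push Not at hcon
  apply hne
  have key : ∀ u ∈ T, u = mx T := by
    intro u hu
    have h1 := mem_idx.mp (hsub hu)
    have h2 : ∑ j, u j = ∑ j, mx T j := by
      apply le_antisymm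
      · exact Finset.sum_le_sum (fun j _ => le_mx hu j)
      · omega
    have h3 := (Finset.sum_eq_sum_iff_of_le (fun j _ => le_mx hu j)).mp h2
    ext j
    exact h3 j (mem_univ j)
  rw [key s hs, key s' hs']

/-- the range of `mx` -/
def box (d n : ℕ) : Finset (Fin d → ℕ) := 
  (Fintype.piFinset (fun _ : Fin d => range (n + 1))).filter (fun m => n < ∑ j, m j)

lemma sum_fiber_le {d n : ℕ} (x : ℝ) (hx : 0 ≤ x) (m : Fin d → ℕ) : 
    ∑ T ∈ (big d n).filter (fun T => mx T = m), x ^ T.card ≤ 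
      (x * (below n m).card) ^ 2 * Real.exp (x * (below n m).card) := by
  refine le_trans ?_ (sum_big_powerset (below n m) x hx)
  apply Finset.sum_le_sum_of_subset_of_nonneg
  · intro T hT
    rw [Finset.mem_filter] at hT
    have hsub := big_subset hT.1
    have h2 := hT.1
    unfold big at h2
    rw [Finset.mem_filter] at h2
    rw [Finset.mem_filter, Finset.mem_powerset]
    refine ⟨?_, h2.2⟩
    intro s hs
    unfold below
    rw [Finset.mem_filter]
    refine ⟨hsub hs, fun j => ?_⟩
    rw [← hT.2]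
    exact le_mx hs j
  · intro T _ _
    positivity

lemma exists_comb (d : ℕ) : ∃ C : ℝ, 0 < C ∧ ∀ (n : ℕ) (x : ℝ), 1 ≤ n → 0 ≤ x → 
    x * (2 ^ (d + 4) * (n : ℝ) ^ d) ≤ 1 → ∀ t ∈ idx (d + 2) n, 
      ∑ T ∈ big (d + 2) n, x ^ T.card * (1 / 2 : ℝ) ^ Aex (mx T) t ≤ C * x ^ 2 := by
  obtain ⟨K, hK, hKb⟩ := exists_K (2 * (d + 1))
  refine ⟨K * (2 * (1 - th)⁻¹) ^ (d + 2), ?_, ?_⟩
  · have : 0 < 1 - th := by linarith [th_lt_one]
    positivity
  intro n x hn hx hxn t ht
  have ht' := mem_idx.mp ht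
  have hmaps : ∀ T ∈ big (d + 2) n, mx T ∈ box (d + 2) n := by
    intro T hT
    unfold box
    rw [Finset.mem_filter, Fintype.mem_piFinset]
    refine ⟨fun j => ?_, lt_sum_mx hT⟩
    rw [Finset.mem_range]
    have := mx_le (big_subset hT) j
    omega
  rw [← Finset.sum_fiberwise_of_maps_to hmaps]
  have hstep : ∀ m ∈ box (d + 2) n, 
      ∑ T ∈ (big (d + 2) n).filter (fun T => mx T = m), x ^ T.card * (1 / 2 : ℝ) ^ Aex (mx T) t ≤ 
        K * x ^ 2 * ∏ j, th ^ ((m j - t j) + (t j - m j)) := by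
    intro m hm
    unfold box at hm
    rw [Finset.mem_filter] at hm
    obtain ⟨r, hr⟩ : ∃ r, ∑ j, m j = n + r := ⟨∑ j, m j - n, by omega⟩
    have hr1 : 1 ≤ r := by omega
    have h1 : ∑ T ∈ (big (d + 2) n).filter (fun T => mx T = m), x ^ T.card * (1 / 2 : ℝ) ^ Aex (mx T) t = 
        (∑ T ∈ (big (d + 2) n).filter (fun T => mx T = m), x ^ T.card) * (1 / 2 : ℝ) ^ Aex m t := by
      rw [Finset.sum_mul]
      apply Finset.sum_congr rfl
      intro T hT
      rw [Finset.mem_filter] at hT
      rw [hT.2]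
    rw [h1, half_pow_Aex hr ht']
    have h2 := sum_fiber_le (d := d + 2) (n := n) x hx m
    set b := ((below n m).card : ℝ) with hb
    have hb0 : 0 ≤ b := by positivity
    have hb1 : b ≤ ((r : ℝ) + 1) ^ (d + 1) := by
      have := (card_below_le hr).trans (card_idx_le (d + 1) r)
      rw [hb]
      exact_mod_cast this
    have hb2 : x * b ≤ (r : ℝ) * (1 / 8) := by
      have h3 := card_below_le' (d := d) hr
      have h4 : b ≤ ((r : ℝ) + 1) * ((n : ℝ) + 1) ^ d := by
        rw [hb]
        exact_mod_cast h3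
      have h5 : ((n : ℝ) + 1) ^ d ≤ (2 * n) ^ d := by
        apply pow_le_pow_left₀ (by positivity)
        have : (1 : ℝ) ≤ n := by exact_mod_cast hn
        linarith
      have h6 : (r : ℝ) + 1 ≤ 2 * r := by
        have : (1 : ℝ) ≤ r := by exact_mod_cast hr1
        linarith
      have h7 : b ≤ (2 * r) * (2 * n) ^ d := h4.trans (mul_le_mul h6 h5 (by positivity) (by positivity))
      have h8 : x * b ≤ x * ((2 * r) * (2 * n) ^ d) := mul_le_mul_of_nonneg_left h7 hx
      have h9 : x * ((2 * r) * (2 * n) ^ d) = (x * (2 ^ (d + 4) * (n : ℝ) ^ d)) * (r * (1 / 8)) := by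
        rw [mul_pow]
        ring
      rw [h9] at h8
      have h10 : (x * (2 ^ (d + 4) * (n : ℝ) ^ d)) * (r * (1 / 8)) ≤ 1 * (r * (1 / 8)) := 
        mul_le_mul_of_nonneg_right hxn (by positivity)
      linarith
    have h11 : (x * b) ^ 2 * Real.exp (x * b) ≤ 
        x ^ 2 * ((r : ℝ) + 1) ^ (2 * (d + 1)) * Real.exp (1 / 8) ^ r := by
      apply mul_le_mul _ _ (Real.exp_pos _).le (by positivity)
      · rw [mul_pow, mul_comm 2 (d + 1), pow_mul]
        apply mul_le_mul_of_nonneg_left _ (by positivity)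
        exact pow_le_pow_left₀ hb0 hb1 2
      · rw [← Real.exp_nat_mul]
        exact Real.exp_le_exp.mpr hb2
    have hP : 0 ≤ ∏ j, th ^ ((m j - t j) + (t j - m j)) := 
      Finset.prod_nonneg (fun j _ => (pow_pos th_pos _).le)
    calc (∑ T ∈ (big (d + 2) n).filter (fun T => mx T = m), x ^ T.card) * 
          (th ^ r * ∏ j, th ^ ((m j - t j) + (t j - m j)))
        ≤ (x ^ 2 * ((r : ℝ) + 1) ^ (2 * (d + 1)) * Real.exp (1 / 8) ^ r) * 
          (th ^ r * ∏ j, th ^ ((m j - t j) + (t j - m j))) := by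
          apply mul_le_mul_of_nonneg_right (h2.trans h11)
          exact mul_nonneg (pow_pos th_pos r).le hP
      _ = (((r : ℝ) + 1) ^ (2 * (d + 1)) * (th * Real.exp (1 / 8)) ^ r) * 
          (x ^ 2 * ∏ j, th ^ ((m j - t j) + (t j - m j))) := by
          rw [mul_pow th]
          ring
      _ ≤ K * (x ^ 2 * ∏ j, th ^ ((m j - t j) + (t j - m j))) := by
          apply mul_le_mul_of_nonneg_right (hKb r)
          positivity
      _ = K * x ^ 2 * ∏ j, th ^ ((m j - t j) + (t j - m j)) := by ring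
  calc ∑ m ∈ box (d + 2) n, ∑ T ∈ (big (d + 2) n).filter (fun T => mx T = m), 
        x ^ T.card * (1 / 2 : ℝ) ^ Aex (mx T) t 
      ≤ ∑ m ∈ box (d + 2) n, K * x ^ 2 * ∏ j, th ^ ((m j - t j) + (t j - m j)) := 
        Finset.sum_le_sum hstep
    _ ≤ ∑ m ∈ Fintype.piFinset (fun _ : Fin (d + 2) => range (n + 1)), 
          K * x ^ 2 * ∏ j, th ^ ((m j - t j) + (t j - m j)) := by
        apply Finset.sum_le_sum_of_subset_of_nonneg
        · exact Finset.filter_subset _ _
        · intro m _ _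
          have hP : 0 ≤ ∏ j, th ^ ((m j - t j) + (t j - m j)) := 
            Finset.prod_nonneg (fun j _ => (pow_pos th_pos _).le)
          positivity
    _ = K * x ^ 2 * ∏ j, ∑ a ∈ range (n + 1), th ^ ((a - t j) + (t j - a)) := by
        rw [← Finset.mul_sum, Finset.prod_univ_sum]
    _ ≤ K * x ^ 2 * ∏ _j : Fin (d + 2), (2 * (1 - th)⁻¹) := by
        apply mul_le_mul_of_nonneg_left _ (by positivity)
        apply Finset.prod_le_prod
        · intro j _
          exact Finset.sum_nonneg (fun a _ => (pow_pos th_pos _).le)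
        · intro j _
          exact sum_dist_le n (t j)
    _ = K * (2 * (1 - th)⁻¹) ^ (d + 2) * x ^ 2 := by
        rw [Finset.prod_const, Finset.card_univ, Fintype.card_fin]
        ring

end Pool.Agent.Helper58.Vol
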