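import Pool.Agent.Helper58.Vol.Defs

/-!
# Dyadic blocks: cardinalities and a counting lemma
-/

open Finset BigOperators

namespace Pool.Agent.Helper58.Vol

/-- one-dimensional dyadic block -/
noncomputable def blk (r : ℕ) : Finset ℤ :=
  (Finset.Ioo (-(2 ^ r : ℤ)) (2 ^ r)).filter fun k => (2 ^ r : ℤ) / 2 ≤ |k|

lemma block_eq {d : ℕ} (s : Fin d → ℕ) : block s = Fintype.piFinset fun j => blk (s j) := rfl

lemma mem_blk {r : ℕ} {k : ℤ} : k ∈ blk r ↔ |k| < 2 ^ r ∧ (2 ^ r : ℤ) / 2 ≤ |k| := by
  unfold blk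
  rw [Finset.mem_filter, Finset.mem_Ioo, abs_lt]

lemma mem_block {d : ℕ} {s : Fin d → ℕ} {k : Fin d → ℤ} : k ∈ block s ↔ ∀ j, k j ∈ blk (s j) := by
  rw [block_eq, Fintype.mem_piFinset]

lemma blk_zero : blk 0 = {0} := by
  ext k
  rw [mem_blk]
  simp only [pow_zero, Int.abs_lt_one_iff, mem_singleton]
  constructor
  · exact fun h => h.1
  · rintro rfl; simp

lemma blk_succ (r : ℕ) : blk (r + 1) = Ico (2 ^ r : ℤ) (2 ^ (r + 1)) ∪ Ioc (-(2 ^ (r + 1)) : ℤ) (-(2 ^ r)) := by
  ext k
  rw [mem_blk, Finset.mem_union, Finset.mem_Ico, Finset.mem_Ioc]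
  have h2 : (2 ^ (r + 1) : ℤ) / 2 = 2 ^ r := by
    rw [pow_succ]; simp
  have hp : (0 : ℤ) < 2 ^ r := by positivity
  rw [h2]
  rcases le_total 0 k with h | h
  · rw [abs_of_nonneg h]
    constructor
    · intro h'; left; exact ⟨h'.2, h'.1⟩
    · rintro (h' | h')
      · exact ⟨h'.2, h'.1⟩
      · omega
  · rw [abs_of_nonpos h]
    constructor
    · intro h'; right; constructor <;> omega
    · rintro (h' | h')
      · omega
      · constructor <;> omega

lemma card_blk (r : ℕ) : (blk r).card = 2 ^ r := by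
  cases r with
  | zero => rw [blk_zero]; simp
  | succ r =>
    rw [blk_succ, Finset.card_union_of_disjoint]
    · rw [Int.card_Ico, Int.card_Ioc]
      have e : (2 ^ (r + 1) : ℤ) = 2 * 2 ^ r := by rw [pow_succ]; ring
      have e1 : (2 ^ (r + 1) - 2 ^ r : ℤ) = ((2 ^ r : ℕ) : ℤ) := by push_cast; rw [e]; ring
      have e2 : (-(2 ^ r) - -(2 ^ (r + 1)) : ℤ) = ((2 ^ r : ℕ) : ℤ) := by push_cast; rw [e]; ring
      rw [e1, e2, Int.toNat_natCast]
      ring
    · rw [Finset.disjoint_left]
      intro k hk hk'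
      rw [Finset.mem_Ico] at hk
      rw [Finset.mem_Ioc] at hk'
      have hp : (0 : ℤ) < 2 ^ r := by positivity
      omega

lemma neg_mem_blk {r : ℕ} {k : ℤ} (h : k ∈ blk r) : -k ∈ blk r := by
  rw [mem_blk] at h ⊢
  rwa [abs_neg]

lemma blk_disj {r r' : ℕ} {k : ℤ} (h : k ∈ blk r) (h' : k ∈ blk r') : r = r' := by
  wlog hlt : r < r' generalizing r r'
  · rcases Nat.lt_trichotomy r r' with h1 | h1 | h1
    · exact this h h' h1
    · exact h1
    · exact (this h' h h1).symm
  exfalso
  rw [mem_blk] at h h'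
  obtain ⟨q, rfl⟩ := Nat.exists_eq_add_of_lt hlt
  have h2 : (2 ^ (r + q + 1) : ℤ) / 2 = 2 ^ (r + q) := by
    rw [pow_succ]; simp
  have h3 : (2 ^ r : ℤ) ≤ 2 ^ (r + q) := pow_le_pow_right₀ (by norm_num) (by omega)
  have := h'.2
  rw [h2] at this
  have := h.1
  omega

lemma card_block {d : ℕ} (s : Fin d → ℕ) : (block s).card = 2 ^ (∑ j, s j) := by
  rw [block_eq, Fintype.card_piFinset]
  simp only [card_blk]
  rw [Finset.prod_pow_eq_pow_sum]

lemma neg_mem_block {d : ℕ} {s : Fin d → ℕ} {k : Fin d → ℤ} (h : k ∈ block s) : -k ∈ block s := by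
  rw [mem_block] at h ⊢
  intro j
  exact neg_mem_blk (h j)

lemma block_disj {d : ℕ} {s s' : Fin d → ℕ} {k : Fin d → ℤ} (h : k ∈ block s) (h' : k ∈ block s') :
    s = s' := by
  rw [mem_block] at h h'
  ext j
  exact blk_disj (h j) (h' j)

/-- index set of the layer -/
abbrev idx (d n : ℕ) : Finset (Fin d → ℕ) := Finset.piAntidiag Finset.univ n

lemma mem_idx {d n : ℕ} {s : Fin d → ℕ} : s ∈ idx d n ↔ ∑ j, s j = n := by
  simp [idx]

lemma mem_layer {d n : ℕ} {k : Fin d → ℤ} : k ∈ layer d n ↔ ∃ s ∈ idx d n, k ∈ block s := by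
  unfold layer
  rw [Finset.mem_biUnion]

lemma card_layer (d n : ℕ) : (layer d n).card = (idx d n).card * 2 ^ n := by
  unfold layer
  rw [Finset.card_biUnion]
  · rw [Finset.sum_congr rfl (g := fun _ => 2 ^ n), Finset.sum_const, smul_eq_mul]
    intro s hs
    rw [card_block, mem_idx.mp hs]
  · intro s _ s' _ hne
    show Disjoint (block s) (block s')
    rw [Finset.disjoint_left]
    intro k hk hk'
    exact hne (block_disj hk hk')

lemma idx_le {d n : ℕ} {s : Fin d → ℕ} (h : s ∈ idx d n) (j : Fin d) : s j ≤ n := by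
  rw [← mem_idx.mp h]
  exact Finset.single_le_sum (fun _ _ => Nat.zero_le _) (Finset.mem_univ j)

lemma abs_lt_of_mem_block {d n : ℕ} {s : Fin d → ℕ} (hs : ∀ j, s j ≤ n) {k : Fin d → ℤ} 
    (h : k ∈ block s) (j : Fin d) : |k j| < 2 ^ n := by
  have := (mem_blk.mp (mem_block.mp h j)).1
  exact this.trans_le (pow_le_pow_right₀ (by norm_num) (hs j))

lemma abs_lt_of_mem_layer {d n : ℕ} {k : Fin d → ℤ} (h : k ∈ layer d n) (j : Fin d) : 
    |k j| < 2 ^ n := by
  obtain ⟨s, hs, hk⟩ := mem_layer.mp h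
  exact abs_lt_of_mem_block (idx_le hs) hk j

lemma card_idx_le (d n : ℕ) : (idx (d + 1) n).card ≤ (n + 1) ^ d := by
  have h : (idx (d + 1) n).card ≤ (Fintype.piFinset (fun _ : Fin d => range (n + 1))).card := by
    apply Finset.card_le_card_of_injOn (fun s => Fin.tail s)
    · intro s hs
      rw [Finset.mem_coe, Fintype.mem_piFinset]
      intro j
      have := idx_le (Finset.mem_coe.mp hs) j.succ
      show s j.succ ∈ range (n + 1)
      rw [Finset.mem_range]
      omega
    · intro s hs s' hs' he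
      have h1 := mem_idx.mp (Finset.mem_coe.mp hs)
      have h2 := mem_idx.mp (Finset.mem_coe.mp hs')
      rw [Fin.sum_univ_succ] at h1 h2
      have h3 : ∀ j : Fin d, s j.succ = s' j.succ := fun j => congrFun he j
      simp only [h3] at h1
      ext j
      refine Fin.cases ?_ ?_ j
      · omega
      · exact h3
  refine h.trans ?_
  rw [Fintype.card_piFinset]
  simp

lemma le_card_idx (d n : ℕ) : (n / d + 1) ^ d ≤ (idx (d + 1) n).card := by
  have h : (Fintype.piFinset (fun _ : Fin d => range (n / d + 1))).card ≤ (idx (d + 1) n).card := by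
    apply Finset.card_le_card_of_injOn (fun z => (Fin.cons (n - ∑ j, z j) z : Fin (d + 1) → ℕ))
    · intro z hz
      rw [Finset.mem_coe, Fintype.mem_piFinset] at hz
      rw [Finset.mem_coe, mem_idx, Fin.sum_univ_succ]
      simp only [Fin.cons_zero, Fin.cons_succ]
      have : ∑ j, z j ≤ n := by
        calc ∑ j, z j ≤ ∑ _j : Fin d, (n / d) := 
              Finset.sum_le_sum (fun j _ => by have := hz j; rw [Finset.mem_range] at this; omega)
          _ = d * (n / d) := by simp
          _ ≤ n := Nat.mul_div_le n d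
      omega
    · intro z _ z' _ he
      exact (Fin.cons_injective2 he).2
  refine le_trans (le_of_eq ?_) h
  rw [Fintype.card_piFinset]
  simp

/-- elements of the index set below `m` -/
def below {d : ℕ} (n : ℕ) (m : Fin d → ℕ) : Finset (Fin d → ℕ) :=
  (idx d n).filter (fun s => ∀ j, s j ≤ m j)

lemma card_below_le_idx {d n : ℕ} (m : Fin d → ℕ) : (below n m).card ≤ (idx d n).card := 
  Finset.card_filter_le _ _

lemma card_below_le {d n r : ℕ} {m : Fin d → ℕ} (hm : ∑ j, m j = n + r) : 
    (below n m).card ≤ (idx d r).card := by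
  apply Finset.card_le_card_of_injOn (fun s => m - s)
  · intro s hs
    unfold below at hs
    rw [Finset.mem_coe, Finset.mem_filter, mem_idx] at hs
    rw [Finset.mem_coe, mem_idx]
    show ∑ j, (m - s) j = r
    have h1 : ∑ j, (m - s) j + ∑ j, s j = ∑ j, m j := by
      rw [← Finset.sum_add_distrib]
      apply Finset.sum_congr rfl
      intro j _
      have := hs.2 j
      simp only [Pi.sub_apply]
      omega
    have := hs.1
    omega
  · intro s hs s' hs' he
    unfold below at hs hs'
    rw [Finset.mem_coe, Finset.mem_filter] at hs hs'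
    ext j
    have h1 := hs.2 j
    have h2 := hs'.2 j
    have h3 : m j - s j = m j - s' j := congrFun he j
    omega

lemma card_below_le' {d n r : ℕ} {m : Fin (d + 2) → ℕ} (hm : ∑ j, m j = n + r) : 
    (below n m).card ≤ (r + 1) * (n + 1) ^ d := by
  rcases le_total r n with h | h
  · calc (below n m).card ≤ (idx (d + 2) r).card := card_below_le hm
      _ ≤ (r + 1) ^ (d + 1) := card_idx_le (d + 1) r
      _ = (r + 1) * (r + 1) ^ d := by rw [pow_succ]; ring
      _ ≤ (r + 1) * (n + 1) ^ d := Nat.mul_le_mul_left _ (Nat.pow_le_pow_left (by omega) d)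
  · calc (below n m).card ≤ (idx (d + 2) n).card := card_below_le_idx m
      _ ≤ (n + 1) ^ (d + 1) := card_idx_le (d + 1) n
      _ = (n + 1) * (n + 1) ^ d := by rw [pow_succ]; ring
      _ ≤ (r + 1) * (n + 1) ^ d := Nat.mul_le_mul_right _ (by omega)

/-! ### The counting lemma -/

lemma eq_of_dvd_sub {n : ℕ} {M a b : ℤ} (hM : 2 ^ (n + 1) ≤ M) (ha : |a| < 2 ^ n) (hb : |b| < 2 ^ n) 
    (h : M ∣ a - b) : a = b := by
  have h1 : |a - b| < M := by
    have := abs_sub a b
    have e : (2 ^ (n + 1) : ℤ) = 2 * 2 ^ n := by rw [pow_succ]; ring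
    omega
  have := Int.eq_zero_of_abs_lt_dvd h h1
  omega

lemma abs_lt_of_mem_blk {n r : ℕ} (h : r ≤ n) {k : ℤ} (hk : k ∈ blk r) : |k| < 2 ^ n := 
  (mem_blk.mp hk).1.trans_le (pow_le_pow_right₀ (by norm_num) h)

lemma count_one {σ : Type*} [Fintype σ] [DecidableEq σ] (r : σ → ℕ) (t n : ℕ) (M : ℤ) 
    (hM : 2 ^ (n + 1) ≤ M) (hr : ∀ s, r s ≤ n) (ht : t ≤ n) (s₀ : σ) :
    ((blk t ×ˢ Fintype.piFinset (fun s => blk (r s))).filter 
      (fun p => M ∣ (∑ s, p.2 s) - p.1)).card * 2 ^ (r s₀ - t) ≤ 2 ^ (∑ s, r s) := by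
  set D := (blk t ×ˢ Fintype.piFinset (fun s => blk (r s))).filter 
      (fun p => M ∣ (∑ s, p.2 s) - p.1) with hD
  have hmem : ∀ p ∈ D, p.1 ∈ blk t ∧ (∀ s, p.2 s ∈ blk (r s)) ∧ M ∣ (∑ s, p.2 s) - p.1 := by
    intro p hp
    rw [hD, Finset.mem_filter, Finset.mem_product, Fintype.mem_piFinset] at hp
    exact ⟨hp.1.1, hp.1.2, hp.2⟩
  rcases le_or_gt (r s₀) t with h | h
  · rw [Nat.sub_eq_zero_of_le h, pow_zero, mul_one]
    calc D.card ≤ (Fintype.piFinset (fun s => blk (r s))).card := by
          apply Finset.card_le_card_of_injOn (fun p => p.2)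
          · intro p hp
            rw [Finset.mem_coe, Fintype.mem_piFinset]
            exact (hmem p hp).2.1
          · intro p hp q hq he
            have h1 := hmem p hp
            have h2 := hmem q hq
            simp only at he
            rw [← he] at h2
            apply Prod.ext _ he
            apply eq_of_dvd_sub hM (abs_lt_of_mem_blk ht h1.1) (abs_lt_of_mem_blk ht h2.1)
            have := dvd_sub h2.2.2 h1.2.2
            have e : (∑ s, p.2 s - q.1) - (∑ s, p.2 s - p.1) = p.1 - q.1 := by ring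
            rwa [e] at this
      _ = 2 ^ (∑ s, r s) := by
          rw [Fintype.card_piFinset]
          simp only [card_blk]
          rw [Finset.prod_pow_eq_pow_sum]
  · have hcard : D.card ≤ 2 ^ t * 2 ^ (∑ s ∈ univ.erase s₀, r s) := by
      calc D.card ≤ (blk t ×ˢ Fintype.piFinset (fun s => if s = s₀ then {0} else blk (r s))).card := by
            apply Finset.card_le_card_of_injOn (fun p => (p.1, Function.update p.2 s₀ 0))
            · intro p hp
              have h1 := hmem p hp
              rw [Finset.mem_coe, Finset.mem_product, Fintype.mem_piFinset]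
              refine ⟨h1.1, fun s => ?_⟩
              by_cases hs : s = s₀
              · subst hs; simp
              · simp only [hs, ne_eq, not_false_eq_true, Function.update_of_ne, if_false]
                exact h1.2.1 s
            · intro p hp q hq he
              have h1 := hmem p hp
              have h2 := hmem q hq
              simp only [Prod.mk.injEq] at he
              have h3 : ∀ s, s ≠ s₀ → p.2 s = q.2 s := by
                intro s hs
                have := congrFun he.2 s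
                simpa [hs] using this
              have h4 : p.2 s₀ = q.2 s₀ := by
                apply eq_of_dvd_sub hM (abs_lt_of_mem_blk (hr s₀) (h1.2.1 s₀)) 
                  (abs_lt_of_mem_blk (hr s₀) (h2.2.1 s₀))
                have h5 := dvd_sub h1.2.2 h2.2.2
                rw [he.1, ← Finset.add_sum_erase univ _ (mem_univ s₀), 
                  ← Finset.add_sum_erase univ q.2 (mem_univ s₀), 
                  Finset.sum_congr rfl (fun s hs => h3 s (Finset.ne_of_mem_erase hs))] at h5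
                have e : (p.2 s₀ + ∑ s ∈ univ.erase s₀, q.2 s - q.1) - 
                  (q.2 s₀ + ∑ s ∈ univ.erase s₀, q.2 s - q.1) = p.2 s₀ - q.2 s₀ := by ring
                rwa [e] at h5
              apply Prod.ext he.1
              ext s
              by_cases hs : s = s₀
              · subst hs; exact h4
              · exact h3 s hs
        _ = 2 ^ t * 2 ^ (∑ s ∈ univ.erase s₀, r s) := by
            rw [Finset.card_product, card_blk, Fintype.card_piFinset]
            congr 1
            rw [← Finset.mul_prod_erase univ _ (mem_univ s₀), ← Finset.prod_pow_eq_pow_sum]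
            simp only [if_true, card_singleton, one_mul]
            apply Finset.prod_congr rfl
            intro s hs
            rw [if_neg (Finset.ne_of_mem_erase hs), card_blk]
    calc D.card * 2 ^ (r s₀ - t) ≤ 2 ^ t * 2 ^ (∑ s ∈ univ.erase s₀, r s) * 2 ^ (r s₀ - t) := 
          Nat.mul_le_mul_right _ hcard
      _ = 2 ^ (∑ s, r s) := by
          rw [← Finset.add_sum_erase univ r (mem_univ s₀), ← pow_add, ← pow_add]
          congr 1
          omega

lemma count_all {d : ℕ} (T : Finset (Fin d → ℕ)) (t : Fin d → ℕ) (n : ℕ) (M : ℤ)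
    (hM : 2 ^ (n + 1) ≤ M) (hT : ∀ s ∈ T, ∀ j, s j ≤ n) (ht : ∀ j, t j ≤ n) (hne : T.Nonempty) :
    ((block t ×ˢ Fintype.piFinset (fun s : T => block s.1)).filter 
      (fun p => ∀ j, M ∣ (∑ s, p.2 s j) - p.1 j)).card * 2 ^ (∑ j, (T.sup (fun s => s j) - t j)) 
      ≤ 2 ^ (∑ s ∈ T, ∑ j, s j) := by
  set D := (block t ×ˢ Fintype.piFinset (fun s : T => block s.1)).filter 
      (fun p => ∀ j, M ∣ (∑ s, p.2 s j) - p.1 j) with hD
  set E : Fin d → Finset (ℤ × (T → ℤ)) := fun j => 
    ((blk (t j) ×ˢ Fintype.piFinset (fun s : T => blk (s.1 j))).filter 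
      (fun p => M ∣ (∑ s, p.2 s) - p.1)) with hE
  have hcard : D.card ≤ ∏ j, (E j).card := by
    rw [← Fintype.card_piFinset]
    apply Finset.card_le_card_of_injOn (fun p j => (p.1 j, fun s => p.2 s j))
    · intro p hp
      rw [Finset.mem_coe, hD, Finset.mem_filter, Finset.mem_product, Fintype.mem_piFinset] at hp
      rw [Finset.mem_coe, Fintype.mem_piFinset]
      intro j
      rw [hE]
      simp only
      rw [Finset.mem_filter, Finset.mem_product, Fintype.mem_piFinset]
      exact ⟨⟨mem_block.mp hp.1.1 j, fun s => mem_block.mp (hp.1.2 s) j⟩, hp.2 j⟩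
    · intro p _ q _ he
      have h1 : ∀ j, p.1 j = q.1 j ∧ (fun s => p.2 s j) = (fun s => q.2 s j) := by
        intro j
        exact Prod.mk.inj (congrFun he j)
      apply Prod.ext
      · ext j; exact (h1 j).1
      · ext s j; exact congrFun (h1 j).2 s
  have hone : ∀ j, (E j).card * 2 ^ (T.sup (fun s => s j) - t j) ≤ 2 ^ (∑ s : T, s.1 j) := by
    intro j
    obtain ⟨s₀, hs₀, hsup⟩ := Finset.exists_mem_eq_sup T hne (fun s => s j)
    rw [hsup]
    exact count_one (fun s : T => s.1 j) (t j) n M hM (fun s => hT s.1 s.2 j) (ht j) ⟨s₀, hs₀⟩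
  calc D.card * 2 ^ (∑ j, (T.sup (fun s => s j) - t j)) 
      ≤ (∏ j, (E j).card) * ∏ j, 2 ^ (T.sup (fun s => s j) - t j) := by
        rw [Finset.prod_pow_eq_pow_sum]
        exact Nat.mul_le_mul_right _ hcard
    _ = ∏ j, ((E j).card * 2 ^ (T.sup (fun s => s j) - t j)) := by rw [Finset.prod_mul_distrib]
    _ ≤ ∏ j, 2 ^ (∑ s : T, s.1 j) := Finset.prod_le_prod' (fun j _ => hone j)
    _ = 2 ^ (∑ s ∈ T, ∑ j, s j) := by
        rw [Finset.prod_pow_eq_pow_sum, Finset.sum_comm, Finset.sum_coe_sort T (fun s => ∑ j, s j)]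

end Pool.Agent.Helper58.Vol
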