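import Mathlib

/-!
# The sup-norm unit ball of trigonometric polynomials on the hyperbolic layer
-/

namespace Pool.Agent.Helper58.Vol

/-- The dyadic block `ρ(s) = {k ∈ ℤ^d : ⌊2^{s_j - 1}⌋ ≤ |k_j| < 2^{s_j}, j = 1, …, d}`.
(In integer arithmetic `⌊2^{s_j-1}⌋ = 2 ^ s_j / 2`.) -/
noncomputable def block {d : ℕ} (s : Fin d → ℕ) : Finset (Fin d → ℤ) :=
  Fintype.piFinset fun j =>
    (Finset.Ioo (-(2 ^ s j : ℤ)) (2 ^ s j)).filter fun k => (2 ^ s j : ℤ) / 2 ≤ |k|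

/-- The hyperbolic layer `ΔQ_n`, the union of the blocks `ρ(s)` over `s ∈ ℕ₀^d`, `|s|₁ = n`. -/
noncomputable def layer (d n : ℕ) : Finset (Fin d → ℤ) :=
  (Finset.piAntidiag Finset.univ n).biUnion block

/-- The trigonometric polynomial `∑_{k ∈ Λ} (a_{k,0} + i a_{k,1}) e^{i (k, x)}` with coefficient
vector `a ∈ ℝ^{2|Λ|}` (real parts `a_{k,0}` and imaginary parts `a_{k,1}` of the coefficients). -/
noncomputable def trigPoly {d : ℕ} (Λ : Finset (Fin d → ℤ)) (a : Λ × Fin 2 → ℝ) (x : Fin d → ℝ) :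
    ℂ :=
  ∑ k : Λ, ((a (k, 0) : ℂ) + (a (k, 1) : ℂ) * Complex.I) *
    Complex.exp (Complex.I * ((∑ j, (k.1 j : ℝ) * x j : ℝ) : ℂ))

/-- The body `B_Λ(L_∞) ⊂ ℝ^{2|Λ|}`: coefficient vectors of the polynomials with sup-norm `≤ 1`. -/
def unitBall {d : ℕ} (Λ : Finset (Fin d → ℤ)) : Set (Λ × Fin 2 → ℝ) :=
  {a | ∀ x : Fin d → ℝ, ‖trigPoly Λ a x‖ ≤ 1}

end Pool.Agent.Helper58.Vol
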