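import Pool.Agent.Helper58.Vol.Defs

/-!
# Characters on a finite grid
-/

open Finset BigOperators

namespace Pool.Agent.Helper58.Vol

/-- the point `2π x / M` of the torus -/
noncomputable def gpt {d : ℕ} (M : ℕ) (x : Fin d → Fin M) : Fin d → ℝ :=
  fun j => 2 * Real.pi * ((x j : ℕ) : ℝ) / M

/-- the character `e^{i (k, y)}` -/
noncomputable def chr {d : ℕ} (k : Fin d → ℤ) (y : Fin d → ℝ) : ℂ :=
  Complex.exp (Complex.I * ((∑ j, (k j : ℝ) * y j : ℝ) : ℂ))

variable {d : ℕ}

lemma chr_add (k l : Fin d → ℤ) (y : Fin d → ℝ) : chr (k + l) y = chr k y * chr l y := by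
  unfold chr
  rw [← Complex.exp_add]
  congr 1
  simp only [Pi.add_apply, Int.cast_add, add_mul, Finset.sum_add_distrib]
  push_cast
  ring

lemma chr_zero (y : Fin d → ℝ) : chr 0 y = 1 := by
  unfold chr
  simp

lemma chr_neg (k : Fin d → ℤ) (y : Fin d → ℝ) : chr (-k) y = (starRingEnd ℂ) (chr k y) := by
  unfold chr
  rw [← Complex.exp_conj]
  congr 1
  simp only [Pi.neg_apply, Int.cast_neg, neg_mul, Finset.sum_neg_distrib, map_mul, Complex.conj_I, 
    Complex.conj_ofReal]
  push_cast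
  ring

lemma norm_chr (k : Fin d → ℤ) (y : Fin d → ℝ) : ‖chr k y‖ = 1 := by
  unfold chr
  rw [mul_comm]
  exact Complex.norm_exp_ofReal_mul_I _

lemma chr_sum {σ : Type*} (T : Finset σ) (l : σ → Fin d → ℤ) (y : Fin d → ℝ) : 
    chr (∑ s ∈ T, l s) y = ∏ s ∈ T, chr (l s) y := by
  classical
  induction T using Finset.induction_on with
  | empty => simp [chr_zero]
  | insert s T hs ih => rw [Finset.sum_insert hs, Finset.prod_insert hs, chr_add, ih]

lemma chr_mul_conj (k l : Fin d → ℤ) (y : Fin d → ℝ) : 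
    chr k y * (starRingEnd ℂ) (chr l y) = chr (k - l) y := by
  rw [← chr_neg, ← chr_add, sub_eq_add_neg]

lemma chr_eq_prod (k : Fin d → ℤ) (M : ℕ) (x : Fin d → Fin M) : 
    chr k (gpt M x) = ∏ j, (Complex.exp (2 * Real.pi * Complex.I * (k j) / M)) ^ ((x j : ℕ)) := by
  unfold chr gpt
  simp_rw [← Complex.exp_nat_mul]
  rw [← Complex.exp_sum]
  congr 1
  push_cast
  rw [Finset.mul_sum]
  apply Finset.sum_congr rfl
  intro j _
  ring

lemma geom_factor (M : ℕ) (hM : 0 < M) (k : ℤ) : 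
    ∑ x : Fin M, (Complex.exp (2 * Real.pi * Complex.I * k / M)) ^ (x : ℕ) = 
      if (M : ℤ) ∣ k then (M : ℂ) else 0 := by
  have hM' : (M : ℂ) ≠ 0 := by exact_mod_cast hM.ne'
  rw [Fin.sum_univ_eq_sum_range (fun i => (Complex.exp (2 * Real.pi * Complex.I * k / M)) ^ i) M]
  have hπ : (2 * Real.pi * Complex.I : ℂ) ≠ 0 := by
    simp [Real.pi_ne_zero, Complex.I_ne_zero]
  split_ifs with h
  · obtain ⟨c, rfl⟩ := h
    have : Complex.exp (2 * Real.pi * Complex.I * ((M : ℤ) * c : ℤ) / M) = 1 := by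
      rw [Complex.exp_eq_one_iff]
      refine ⟨c, ?_⟩
      push_cast
      field_simp
    rw [this]
    simp
  · set z := Complex.exp (2 * Real.pi * Complex.I * k / M) with hz
    have hz1 : z ≠ 1 := by
      intro h1
      rw [hz, Complex.exp_eq_one_iff] at h1
      obtain ⟨c, hc⟩ := h1
      apply h
      refine ⟨c, ?_⟩
      have h2 : (2 * Real.pi * Complex.I : ℂ) * k = (2 * Real.pi * Complex.I) * ((M : ℤ) * c : ℤ) := by
        field_simp at hc
        push_cast
        linear_combination (2 * Real.pi * Complex.I) * hc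
      have h3 := mul_left_cancel₀ hπ h2
      exact_mod_cast h3
    have hzM : z ^ M = 1 := by
      rw [hz, ← Complex.exp_nat_mul, Complex.exp_eq_one_iff]
      refine ⟨k, ?_⟩
      field_simp
    have h4 : (∑ i ∈ range M, z ^ i) * (z - 1) = z ^ M - 1 := geom_sum_mul z M
    rw [hzM, sub_self] at h4
    rcases mul_eq_zero.mp h4 with h5 | h5
    · exact h5
    · exact absurd (sub_eq_zero.mp h5) hz1

lemma expect_chr (M : ℕ) (hM : 0 < M) (k : Fin d → ℤ) : 
    𝔼 x : Fin d → Fin M, chr k (gpt M x) = if ∀ j, (M : ℤ) ∣ k j then 1 else 0 := by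
  have hM' : (M : ℂ) ≠ 0 := by exact_mod_cast hM.ne'
  rw [Fintype.expect_eq_sum_div_card]
  have h1 : ∑ x : Fin d → Fin M, chr k (gpt M x) = ∏ j, if (M : ℤ) ∣ k j then (M : ℂ) else 0 := by
    simp_rw [chr_eq_prod]
    rw [← Fintype.piFinset_univ, ← Finset.prod_univ_sum (fun _ => univ) 
      (fun j (x : Fin M) => (Complex.exp (2 * Real.pi * Complex.I * (k j) / M)) ^ (x : ℕ))]
    exact Finset.prod_congr rfl (fun j _ => geom_factor M hM (k j))
  rw [h1]
  split_ifs with h
  · rw [Finset.prod_congr rfl (fun j _ => if_pos (h j))]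
    simp [hM']
  · push Not at h
    obtain ⟨j, hj⟩ := h
    rw [Finset.prod_eq_zero (mem_univ j) (if_neg hj), zero_div]

end Pool.Agent.Helper58.Vol
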