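import Pool.Agent.Helper58.Vol.Upper

/-!
# A Chernoff bound for the uniform measure on the cube
-/

open Finset BigOperators MeasureTheory

namespace Pool.Agent.Helper58.Vol

lemma integral_exp_le (c : ℝ) : 
    ∫ t in Set.Icc (-1 : ℝ) 1, Real.exp (c * t) ≤ 2 * Real.exp (c ^ 2 / 2) := by
  calc ∫ t in Set.Icc (-1 : ℝ) 1, Real.exp (c * t) 
      ≤ ∫ t in Set.Icc (-1 : ℝ) 1, (Real.cosh c + t * Real.sinh c) := by
        apply setIntegral_mono_on
        · exact (by fun_prop : Continuous (fun t : ℝ => Real.exp (c * t))).integrableOn_Icc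
        · exact (by fun_prop : Continuous (fun t : ℝ => Real.cosh c + t * Real.sinh c)).integrableOn_Icc
        · exact measurableSet_Icc
        · intro t ht
          rw [mul_comm c t]
          exact Real.exp_mul_le_cosh_add_mul_sinh (abs_le.mpr ht) c
    _ = 2 * Real.cosh c := by
        rw [integral_Icc_eq_integral_Ioc, ← intervalIntegral.integral_of_le (by norm_num), 
          intervalIntegral.integral_add (by simp) (by simp), 
          intervalIntegral.integral_mul_const, integral_id]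
        norm_num
    _ ≤ 2 * Real.exp (c ^ 2 / 2) := by
        have := Real.cosh_le_exp_half_sq c
        linarith

variable {ι : Type*} [Fintype ι]

lemma integral_exp_sum_le (b : ι → ℝ) (s V : ℝ) (hb : ∑ i, b i ^ 2 ≤ V) : 
    ∫ a in Set.Icc (-1 : ι → ℝ) 1, Real.exp (s * ∑ i, b i * a i) ≤ 
      2 ^ Fintype.card ι * Real.exp (s ^ 2 * V / 2) := by
  have h1 : (volume : Measure (ι → ℝ)).restrict (Set.Icc (-1 : ι → ℝ) 1) = 
      Measure.pi (fun _ : ι => volume.restrict (Set.Icc (-1 : ℝ) 1)) := by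
    rw [← Set.pi_univ_Icc]
    exact Measure.restrict_pi_pi _ _
  rw [h1]
  have h2 : ∀ a : ι → ℝ, Real.exp (s * ∑ i, b i * a i) = ∏ i, Real.exp ((s * b i) * a i) := by
    intro a
    rw [← Real.exp_sum, Finset.mul_sum]
    congr 1
    apply Finset.sum_congr rfl
    intro i _
    ring
  simp_rw [h2]
  rw [integral_fintype_prod_eq_prod (fun i t => Real.exp ((s * b i) * t))]
  calc ∏ i, ∫ t in Set.Icc (-1 : ℝ) 1, Real.exp ((s * b i) * t) 
      ≤ ∏ i, (2 * Real.exp ((s * b i) ^ 2 / 2)) := by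
        apply Finset.prod_le_prod
        · intro i _
          exact integral_nonneg (fun t => (Real.exp_pos _).le)
        · intro i _
          exact integral_exp_le _
    _ = 2 ^ Fintype.card ι * Real.exp (s ^ 2 * (∑ i, b i ^ 2) / 2) := by
        rw [Finset.prod_mul_distrib, Finset.prod_const, Finset.card_univ, ← Real.exp_sum]
        congr 2
        rw [Finset.mul_sum, Finset.sum_div]
        apply Finset.sum_congr rfl
        intro i _
        ring
    _ ≤ 2 ^ Fintype.card ι * Real.exp (s ^ 2 * V / 2) := by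
        apply mul_le_mul_of_nonneg_left _ (by positivity)
        apply Real.exp_le_exp.mpr
        have := mul_le_mul_of_nonneg_left hb (sq_nonneg s)
        linarith

lemma chernoff (b : ι → ℝ) (V τ : ℝ) (hV : 0 < V) (hb : ∑ i, b i ^ 2 ≤ V) (hτ : 0 ≤ τ) : 
    (volume.restrict (Set.Icc (-1 : ι → ℝ) 1)).real {a | τ ≤ ∑ i, b i * a i} ≤ 
      2 ^ Fintype.card ι * Real.exp (-(τ ^ 2 / (2 * V))) := by
  set s := τ / V with hs
  have hs0 : 0 ≤ s := by positivity
  have hcont : Continuous (fun a : ι → ℝ => Real.exp (s * ∑ i, b i * a i)) := by fun_prop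
  have h1 := mul_meas_ge_le_integral_of_nonneg (μ := volume.restrict (Set.Icc (-1 : ι → ℝ) 1)) 
    (f := fun a => Real.exp (s * ∑ i, b i * a i)) 
    (Filter.Eventually.of_forall (fun a => (Real.exp_pos _).le)) hcont.integrableOn_Icc 
    (Real.exp (s * τ))
  have h2 := integral_exp_sum_le b s V hb
  have h3 : (volume.restrict (Set.Icc (-1 : ι → ℝ) 1)).real {a | τ ≤ ∑ i, b i * a i} ≤ 
      (volume.restrict (Set.Icc (-1 : ι → ℝ) 1)).real 
        {a | Real.exp (s * τ) ≤ Real.exp (s * ∑ i, b i * a i)} := by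
    have hfinite : IsFiniteMeasure (volume.restrict (Set.Icc (-1 : ι → ℝ) 1)) := 
      ⟨by rw [Measure.restrict_apply_univ]; exact isCompact_Icc.measure_lt_top⟩
    apply measureReal_mono _ (measure_ne_top _ _)
    intro a ha
    exact Real.exp_le_exp.mpr (mul_le_mul_of_nonneg_left ha hs0)
  have h4 : Real.exp (s * τ) * (volume.restrict (Set.Icc (-1 : ι → ℝ) 1)).real 
      {a | τ ≤ ∑ i, b i * a i} ≤ 2 ^ Fintype.card ι * Real.exp (s ^ 2 * V / 2) := 
    (mul_le_mul_of_nonneg_left h3 (Real.exp_pos _).le).trans (h1.trans h2)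
  have h5 : 2 ^ Fintype.card ι * Real.exp (s ^ 2 * V / 2) = 
      Real.exp (s * τ) * (2 ^ Fintype.card ι * Real.exp (-(τ ^ 2 / (2 * V)))) := by
    have : Real.exp (s ^ 2 * V / 2) = Real.exp (s * τ) * Real.exp (-(τ ^ 2 / (2 * V))) := by
      rw [← Real.exp_add]
      congr 1
      rw [hs]
      field_simp
      ring
    rw [this]
    ring
  rw [h5] at h4
  exact le_of_mul_le_mul_left h4 (Real.exp_pos _)

lemma good_set {J : Type*} [Fintype J] (b : J → ι → ℝ) (V τ : ℝ) (hV : 0 < V) 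
    (hb : ∀ j, ∑ i, b j i ^ 2 ≤ V) (hτ : 0 ≤ τ) 
    (hJ : 2 * (Fintype.card J : ℝ) ≤ Real.exp (τ ^ 2 / (2 * V))) : 
    2 ^ Fintype.card ι / 2 ≤ (volume {a : ι → ℝ | a ∈ Set.Icc (-1 : ι → ℝ) 1 ∧ ∀ j, ∑ i, b j i * a i ≤ τ}).toReal := by
  set Q := Set.Icc (-1 : ι → ℝ) 1 with hQ
  set μ := (volume : Measure (ι → ℝ)).restrict Q with hμ
  have hfin : volume Q ≠ ⊤ := isCompact_Icc.measure_lt_top.ne
  have hμfin : μ Set.univ ≠ ⊤ := by
    rw [hμ, Measure.restrict_apply_univ]
    exact hfin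
  have hcube : volume.real Q = 2 ^ Fintype.card ι := by
    unfold Measure.real
    rw [hQ, Real.volume_Icc_pi_toReal]
    · norm_num
    · intro i; simp
  have hbad : volume.real (Q ∩ ⋃ j, {a : ι → ℝ | τ ≤ ∑ i, b j i * a i}) ≤ 2 ^ Fintype.card ι / 2 := by
    have hm : MeasurableSet (⋃ j, {a : ι → ℝ | τ ≤ ∑ i, b j i * a i}) := by
      apply MeasurableSet.iUnion
      intro j
      exact measurableSet_le measurable_const (by fun_prop)
    have h1 : volume.real (Q ∩ ⋃ j, {a : ι → ℝ | τ ≤ ∑ i, b j i * a i}) = 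
        μ.real (⋃ j, {a : ι → ℝ | τ ≤ ∑ i, b j i * a i}) := by
      rw [hμ, measureReal_restrict_apply hm, Set.inter_comm]
    rw [h1]
    refine (measureReal_iUnion_fintype_le _).trans ?_
    calc ∑ j, μ.real {a : ι → ℝ | τ ≤ ∑ i, b j i * a i} 
        ≤ ∑ _j : J, 2 ^ Fintype.card ι * Real.exp (-(τ ^ 2 / (2 * V))) := 
          Finset.sum_le_sum (fun j _ => chernoff (b j) V τ hV (hb j) hτ)
      _ = 2 ^ Fintype.card ι * (Fintype.card J * Real.exp (-(τ ^ 2 / (2 * V)))) := by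
          rw [Finset.sum_const, Finset.card_univ, nsmul_eq_mul]
          ring
      _ ≤ 2 ^ Fintype.card ι * (1 / 2) := by
          apply mul_le_mul_of_nonneg_left _ (by positivity)
          rw [Real.exp_neg, ← div_eq_mul_inv, div_le_iff₀ (Real.exp_pos _)]
          linarith
      _ = 2 ^ Fintype.card ι / 2 := by ring
  have hsub : Q \ (Q ∩ ⋃ j, {a : ι → ℝ | τ ≤ ∑ i, b j i * a i}) ⊆ 
      {a : ι → ℝ | a ∈ Q ∧ ∀ j, ∑ i, b j i * a i ≤ τ} := by
    rintro a ⟨ha, ha2⟩
    refine ⟨ha, fun j => ?_⟩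
    by_contra hcon
    push Not at hcon
    apply ha2
    refine ⟨ha, Set.mem_iUnion.mpr ⟨j, hcon.le⟩⟩
  have hfin2 : volume {a : ι → ℝ | a ∈ Q ∧ ∀ j, ∑ i, b j i * a i ≤ τ} ≠ ⊤ := 
    ne_top_of_le_ne_top hfin (measure_mono (fun a ha => ha.1))
  have h3 : volume.real (Q \ (Q ∩ ⋃ j, {a : ι → ℝ | τ ≤ ∑ i, b j i * a i})) ≤ 
      volume.real {a : ι → ℝ | a ∈ Q ∧ ∀ j, ∑ i, b j i * a i ≤ τ} := 
    measureReal_mono hsub hfin2
  have h4 : volume.real Q - volume.real (Q ∩ ⋃ j, {a : ι → ℝ | τ ≤ ∑ i, b j i * a i}) ≤ 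
      volume.real (Q \ (Q ∩ ⋃ j, {a : ι → ℝ | τ ≤ ∑ i, b j i * a i})) := 
    le_measureReal_sdiff (ne_top_of_le_ne_top hfin (measure_mono Set.inter_subset_left))
  rw [hcube] at h4
  show _ ≤ volume.real _
  linarith

end Pool.Agent.Helper58.Vol
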