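import Pool.Agent.Helper58.Vol.Lower1

/-!
# The lower bound for the volume
-/

open Finset BigOperators MeasureTheory Pointwise

namespace Pool.Agent.Helper58.Vol

variable {d n : ℕ}

lemma norm_chr_sub_le (k : Fin d → ℤ) (y y' : Fin d → ℝ) (h : ℝ) (hk : ∀ j, |k j| < 2 ^ n) 
    (hy : ∀ j, |y j - y' j| ≤ h) : ‖chr k y - chr k y'‖ ≤ d * (2 ^ n * h) := by
  have h1 : chr k y - chr k y' = chr k y' * (Complex.exp (Complex.I * 
      ((∑ j, (k j : ℝ) * (y j - y' j) : ℝ) : ℂ)) - 1) := by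
    unfold chr
    rw [mul_sub, ← Complex.exp_add, mul_one]
    congr 2
    rw [← mul_add, ← Complex.ofReal_add, ← Finset.sum_add_distrib]
    congr 2
    apply Finset.sum_congr rfl
    intro j _
    ring
  rw [h1, norm_mul, norm_chr, one_mul]
  refine Real.norm_exp_I_mul_ofReal_sub_one_le.trans ?_
  rw [Real.norm_eq_abs]
  refine (Finset.abs_sum_le_sum_abs _ _).trans ?_
  calc ∑ j, |(k j : ℝ) * (y j - y' j)| ≤ ∑ _j : Fin d, 2 ^ n * h := by
        apply Finset.sum_le_sum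
        intro j _
        rw [abs_mul]
        have h2 : |(k j : ℝ)| ≤ 2 ^ n := by
          have := (hk j).le
          exact_mod_cast this
        exact mul_le_mul h2 (hy j) (abs_nonneg _) (by positivity)
    _ = d * (2 ^ n * h) := by simp

lemma norm_cf_le {Λ : Finset (Fin d → ℤ)} {a : Λ × Fin 2 → ℝ} (ha : ∀ i, |a i| ≤ 1) (k : Λ) : 
    ‖cf a k‖ ≤ 2 := by
  unfold cf
  calc ‖(a (k, 0) : ℂ) + (a (k, 1) : ℂ) * Complex.I‖ ≤ ‖(a (k, 0) : ℂ)‖ + ‖(a (k, 1) : ℂ) * Complex.I‖ := 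
        norm_add_le _ _
    _ = |a (k, 0)| + |a (k, 1)| := by
        rw [norm_mul, Complex.norm_I, mul_one, Complex.norm_real, Complex.norm_real, 
          Real.norm_eq_abs, Real.norm_eq_abs]
    _ ≤ 2 := by linarith [ha (k, 0), ha (k, 1)]

lemma norm_trigPoly_sub_le {a : layer d n × Fin 2 → ℝ} (ha : ∀ i, |a i| ≤ 1) (y y' : Fin d → ℝ) 
    (h : ℝ) (hy : ∀ j, |y j - y' j| ≤ h) : 
    ‖trigPoly (layer d n) a y - trigPoly (layer d n) a y'‖ ≤ 
      (layer d n).card * (2 * (d * (2 ^ n * h))) := by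
  rw [trigPoly_eq, trigPoly_eq, ← Finset.sum_sub_distrib]
  refine (norm_sum_le _ _).trans ?_
  calc ∑ k : layer d n, ‖((a (k, 0) : ℂ) + (a (k, 1) : ℂ) * Complex.I) * chr k.1 y - 
        ((a (k, 0) : ℂ) + (a (k, 1) : ℂ) * Complex.I) * chr k.1 y'‖ 
      ≤ ∑ _k : layer d n, 2 * (d * (2 ^ n * h)) := by
        apply Finset.sum_le_sum
        intro k _
        rw [← mul_sub, norm_mul]
        exact mul_le_mul (norm_cf_le ha k) (norm_chr_sub_le k.1 y y' h (abs_lt_of_mem_layer k.2) hy) 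
          (norm_nonneg _) (by norm_num)
    _ = _ := by
        rw [Finset.sum_const, Finset.card_univ, Fintype.card_coe, nsmul_eq_mul]

lemma chr_add_period (k : Fin d → ℤ) (y : Fin d → ℝ) (z : Fin d → ℤ) : 
    chr k (fun j => 2 * Real.pi * z j + y j) = chr k y := by
  unfold chr
  have h1 : (Complex.I * ((∑ j, (k j : ℝ) * (2 * Real.pi * z j + y j) : ℝ) : ℂ)) = 
      Complex.I * ((∑ j, (k j : ℝ) * y j : ℝ) : ℂ) + ((∑ j, k j * z j : ℤ) : ℂ) * (2 * Real.pi * Complex.I) := by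
    push_cast
    rw [Finset.mul_sum, Finset.mul_sum, Finset.sum_mul, ← Finset.sum_add_distrib]
    apply Finset.sum_congr rfl
    intro j _
    ring
  rw [h1, Complex.exp_add, Complex.exp_int_mul_two_pi_mul_I, mul_one]

lemma exists_grid (m : ℕ) (hm : 0 < m) (Λ : Finset (Fin d → ℤ)) (a : Λ × Fin 2 → ℝ) (y : Fin d → ℝ) : 
    ∃ (x : Fin d → Fin m) (y' : Fin d → ℝ), trigPoly Λ a y = trigPoly Λ a y' ∧ 
      ∀ j, |y' j - gpt m x j| ≤ 2 * Real.pi / m := by
  have hm' : (0 : ℝ) < m := by exact_mod_cast hm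
  have hπ := Real.pi_pos
  set f : Fin d → ℝ := fun j => Int.fract (y j / (2 * Real.pi)) with hf
  have hf0 : ∀ j, 0 ≤ f j := fun j => Int.fract_nonneg _
  have hf1 : ∀ j, f j < 1 := fun j => Int.fract_lt_one _
  have hx : ∀ j, ⌊m * f j⌋₊ < m := by
    intro j
    rw [Nat.floor_lt (mul_nonneg hm'.le (hf0 j))]
    have := mul_lt_mul_of_pos_left (hf1 j) hm'
    linarith
  refine ⟨fun j => ⟨⌊m * f j⌋₊, hx j⟩, fun j => 2 * Real.pi * f j, ?_, ?_⟩
  · rw [trigPoly_eq, trigPoly_eq]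
    apply Finset.sum_congr rfl
    intro k _
    congr 1
    rw [← chr_add_period k.1 (fun j => 2 * Real.pi * f j) (fun j => ⌊y j / (2 * Real.pi)⌋)]
    congr 1
    ext j
    have := Int.floor_add_fract (y j / (2 * Real.pi))
    rw [← mul_add, hf]
    simp only
    rw [this]
    field_simp
  · intro j
    unfold gpt
    simp only
    have h1 := Nat.floor_le (mul_nonneg hm'.le (hf0 j))
    have h2 := Nat.lt_floor_add_one (m * f j)
    have e : 2 * Real.pi * f j - 2 * Real.pi * (⌊m * f j⌋₊ : ℝ) / m = 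
        (2 * Real.pi / m) * (m * f j - (⌊m * f j⌋₊ : ℝ)) := by
      field_simp
    rw [e, abs_mul, abs_of_pos (by positivity), abs_of_nonneg (by linarith)]
    have h3 : (m * f j - (⌊m * f j⌋₊ : ℝ)) ≤ 1 := by linarith
    calc 2 * Real.pi / m * (m * f j - (⌊m * f j⌋₊ : ℝ)) ≤ 2 * Real.pi / m * 1 := 
          mul_le_mul_of_nonneg_left h3 (by positivity)
      _ = _ := mul_one _

/-- the linear functionals `± Re f(x)`, `± Im f(x)` -/
noncomputable def lf (m : ℕ) (j : (Fin d → Fin m) × Bool × Bool) (i : layer d n × Fin 2) : ℝ := 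
  (if j.2.1 then 1 else -1) * 
    (if j.2.2 then (if i.2 = 0 then (chr i.1.1 (gpt m j.1)).re else -(chr i.1.1 (gpt m j.1)).im)
      else (if i.2 = 0 then (chr i.1.1 (gpt m j.1)).im else (chr i.1.1 (gpt m j.1)).re))

lemma sum_lf_sq (m : ℕ) (j : (Fin d → Fin m) × Bool × Bool) : 
    ∑ i : layer d n × Fin 2, lf m j i ^ 2 = (layer d n).card := by
  obtain ⟨x, c, e⟩ := j
  rw [Fintype.sum_prod_type]
  have h1 : ∀ k : layer d n, ∑ i : Fin 2, lf m (x, c, e) (k, i) ^ 2 = 1 := by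
    intro k
    rw [Fin.sum_univ_two]
    have h2 : (chr k.1 (gpt m x)).re ^ 2 + (chr k.1 (gpt m x)).im ^ 2 = 1 := by
      have := Complex.sq_norm (chr k.1 (gpt m x))
      rw [norm_chr, Complex.normSq_apply] at this
      linarith
    unfold lf
    cases c <;> cases e <;> simp <;> linarith
  simp_rw [h1]
  simp

lemma sum_lf_re (m : ℕ) (x : Fin d → Fin m) (c : Bool) (a : layer d n × Fin 2 → ℝ) : 
    ∑ i : layer d n × Fin 2, lf m (x, c, true) i * a i = 
      (if c then 1 else -1) * (trigPoly (layer d n) a (gpt m x)).re := by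
  rw [Fintype.sum_prod_type, trigPoly_eq, Complex.re_sum, Finset.mul_sum]
  apply Finset.sum_congr rfl
  intro k _
  rw [Fin.sum_univ_two]
  unfold lf
  cases c <;> simp <;> ring

lemma sum_lf_im (m : ℕ) (x : Fin d → Fin m) (c : Bool) (a : layer d n × Fin 2 → ℝ) : 
    ∑ i : layer d n × Fin 2, lf m (x, c, false) i * a i = 
      (if c then 1 else -1) * (trigPoly (layer d n) a (gpt m x)).im := by
  rw [Fintype.sum_prod_type, trigPoly_eq, Complex.im_sum, Finset.mul_sum]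
  apply Finset.sum_congr rfl
  intro k _
  rw [Fin.sum_univ_two]
  unfold lf
  cases c <;> simp <;> ring

lemma norm_le_of_good {m : ℕ} (hm : 0 < m) {a : layer d n × Fin 2 → ℝ} {τ : ℝ}
    (ha : ∀ i, |a i| ≤ 1) (hgood : ∀ j : (Fin d → Fin m) × Bool × Bool, ∑ i, lf m j i * a i ≤ τ) 
    (hmesh : (layer d n).card * (2 * (d * (2 ^ n * (2 * Real.pi / m)))) ≤ 1) (y : Fin d → ℝ) : 
    ‖trigPoly (layer d n) a y‖ ≤ 2 * τ + 1 := by
  obtain ⟨x, y', hyy, hy'⟩ := exists_grid m hm (layer d n) a y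
  rw [hyy]
  have h1 := norm_trigPoly_sub_le ha y' (gpt m x) _ hy'
  have h2 : ‖trigPoly (layer d n) a (gpt m x)‖ ≤ 2 * τ := by
    refine (Complex.norm_le_abs_re_add_abs_im _).trans ?_
    have e1 := hgood (x, true, true)
    have e2 := hgood (x, false, true)
    have e3 := hgood (x, true, false)
    have e4 := hgood (x, false, false)
    rw [sum_lf_re] at e1 e2
    rw [sum_lf_im] at e3 e4
    simp only [if_true, Bool.false_eq_true, if_false, one_mul, neg_mul] at e1 e2 e3 e4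
    have h3 : |(trigPoly (layer d n) a (gpt m x)).re| ≤ τ := abs_le.mpr ⟨by linarith, e1⟩
    have h4 : |(trigPoly (layer d n) a (gpt m x)).im| ≤ τ := abs_le.mpr ⟨by linarith, e3⟩
    linarith
  have h5 : ‖trigPoly (layer d n) a y'‖ ≤ ‖trigPoly (layer d n) a (gpt m x)‖ + 
      ‖trigPoly (layer d n) a y' - trigPoly (layer d n) a (gpt m x)‖ := by
    have := norm_add_le (trigPoly (layer d n) a (gpt m x)) 
      (trigPoly (layer d n) a y' - trigPoly (layer d n) a (gpt m x))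
    simpa using this
  linarith

lemma lower_aux {m : ℕ} (hm : 0 < m) {τ : ℝ} (hτ : 0 ≤ τ) (hcard : 0 < (layer d n).card)
    (hmesh : (layer d n).card * (2 * (d * (2 ^ n * (2 * Real.pi / m)))) ≤ 1) 
    (hJ : 2 * ((m : ℝ) ^ d * 4) ≤ Real.exp (τ ^ 2 / (2 * (layer d n).card))) : 
    1 / (2 * τ + 1) ≤ 
      (volume (unitBall (layer d n))).toReal ^ (1 / (2 * ((layer d n).card : ℝ))) := by
  set L := (layer d n).card with hL
  have hN : Fintype.card (layer d n × Fin 2) = 2 * L := by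
    rw [Fintype.card_prod, Fintype.card_coe, Fintype.card_fin, mul_comm]
  have hLpos : (0 : ℝ) < L := by exact_mod_cast hcard
  have hJ' : 2 * (Fintype.card ((Fin d → Fin m) × Bool × Bool) : ℝ) ≤ Real.exp (τ ^ 2 / (2 * L)) := by
    refine le_trans (le_of_eq ?_) hJ
    simp only [Fintype.card_prod, Fintype.card_pi, Fintype.card_fin, Finset.prod_const, 
      Finset.card_univ, Fintype.card_bool]
    push_cast
    ring
  have h1 := good_set (fun j => lf (d := d) (n := n) m j) L τ hLpos (fun j => (sum_lf_sq m j).le) hτ hJ'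
  rw [hN] at h1
  set G := {a : layer d n × Fin 2 → ℝ | a ∈ Set.Icc (-1 : layer d n × Fin 2 → ℝ) 1 ∧ 
    ∀ j, ∑ i, lf m j i * a i ≤ τ} with hG
  have h2 : (1 : ℝ) ≤ 2 ^ (2 * L) / 2 := by
    have : (2 : ℝ) ^ 1 ≤ 2 ^ (2 * L) := pow_le_pow_right₀ (by norm_num) (by omega)
    linarith
  have h3 : 1 ≤ (volume G).toReal := h2.trans h1
  have hsub : (2 * τ + 1)⁻¹ • G ⊆ unitBall (layer d n) := by
    rintro _ ⟨a, ⟨ha1, ha2⟩, rfl⟩ y
    have ha : ∀ i, |a i| ≤ 1 := fun i => abs_le.mpr ⟨ha1.1 i, ha1.2 i⟩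
    have h4 := norm_le_of_good hm ha ha2 hmesh y
    have h5 : trigPoly (layer d n) ((2 * τ + 1)⁻¹ • a) y = 
        ((2 * τ + 1)⁻¹ : ℝ) * trigPoly (layer d n) a y := by
      have := trigPoly_comb (layer d n) a 0 (2 * τ + 1)⁻¹ 0 y
      simp only [smul_zero, add_zero, Complex.ofReal_zero, zero_mul] at this
      exact this
    show ‖trigPoly (layer d n) ((2 * τ + 1)⁻¹ • a) y‖ ≤ 1
    rw [h5, norm_mul, Complex.norm_real, Real.norm_eq_abs, abs_of_pos (by positivity), 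
      ← div_eq_inv_mul, div_le_one (by positivity)]
    exact h4
  have hvol : volume ((2 * τ + 1)⁻¹ • G) = ENNReal.ofReal (((2 * τ + 1)⁻¹) ^ (2 * L)) * volume G := by
    rw [Measure.addHaar_smul, Module.finrank_fintype_fun_eq_card, hN, abs_of_nonneg (by positivity)]
  have hfin : volume (unitBall (layer d n)) ≠ ⊤ := isCompact_unitBall.measure_lt_top.ne
  have h6 : ((2 * τ + 1)⁻¹) ^ (2 * L) ≤ (volume (unitBall (layer d n))).toReal := by
    have h7 := ENNReal.toReal_mono hfin (measure_mono hsub)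
    rw [hvol, ENNReal.toReal_mul, ENNReal.toReal_ofReal (by positivity)] at h7
    calc ((2 * τ + 1)⁻¹) ^ (2 * L) = ((2 * τ + 1)⁻¹) ^ (2 * L) * 1 := (mul_one _).symm
      _ ≤ ((2 * τ + 1)⁻¹) ^ (2 * L) * (volume G).toReal := 
          mul_le_mul_of_nonneg_left h3 (by positivity)
      _ ≤ _ := h7
  have hexp : (1 / (2 * (L : ℝ))) = ((2 * L : ℕ) : ℝ)⁻¹ := by push_cast; rw [one_div]
  rw [hexp]
  calc 1 / (2 * τ + 1) = (((2 * τ + 1)⁻¹) ^ (2 * L)) ^ (((2 * L : ℕ) : ℝ)⁻¹) := by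
        rw [Real.pow_rpow_inv_natCast (by positivity) (by omega), one_div]
    _ ≤ _ := Real.rpow_le_rpow (by positivity) h6 (by positivity)

theorem lower (d : ℕ) : ∃ c : ℝ, 0 < c ∧ ∀ n : ℕ, 1 ≤ n → 
    c * ((2 : ℝ) ^ n * (n : ℝ) ^ (d + 1)) ^ (-(1 / 2) : ℝ) ≤ 
      (volume (unitBall (layer (d + 1) n))).toReal ^ (1 / (2 * ((layer (d + 1) n).card : ℝ))) := by
  -- constant
  set D : ℝ := (d : ℝ) + 1 with hD
  set C₁ : ℝ := 8 + (13 * D) * D + (D + 1) * D with hC₁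
  have hC₁0 : 0 < C₁ := by positivity
  refine ⟨(2 * Real.sqrt (2 * 2 ^ d * C₁) + 1)⁻¹, by positivity, ?_⟩
  intro n hn
  have hn0 : (0 : ℝ) < n := by exact_mod_cast hn
  have hn1 : (1 : ℝ) ≤ n := by exact_mod_cast hn
  have hπ := Real.pi_pos
  set L := (layer (d + 1) n).card with hL
  have hLS : L = (idx (d + 1) n).card * 2 ^ n := card_layer (d + 1) n
  have hSup : (idx (d + 1) n).card ≤ (n + 1) ^ d := card_idx_le d n
  have hSpos : 0 < (idx (d + 1) n).card := by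
    rw [Finset.card_pos]
    refine ⟨Fin.cons n (fun _ => 0), ?_⟩
    rw [mem_idx, Fin.sum_univ_succ]
    simp
  have hLpos : 0 < L := by rw [hLS]; positivity
  have hLpos' : (0 : ℝ) < L := by exact_mod_cast hLpos
  -- grid
  set m : ℕ := 13 * (d + 1) * 2 ^ n * L with hm
  have hm0 : 0 < m := by rw [hm]; positivity
  have hm0' : (0 : ℝ) < m := by exact_mod_cast hm0
  have hmesh : (L : ℝ) * (2 * (((d + 1 : ℕ) : ℝ) * (2 ^ n * (2 * Real.pi / m)))) ≤ 1 := by
    have h1 : (L : ℝ) * (2 * (((d + 1 : ℕ) : ℝ) * (2 ^ n * (2 * Real.pi / m)))) = 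
        (4 * Real.pi) * (((d + 1 : ℕ) : ℝ) * 2 ^ n * L) / m := by ring
    rw [h1, div_le_one hm0', hm]
    push_cast
    have h2 : 4 * Real.pi ≤ 13 := by linarith [Real.pi_lt_d2]
    have h3 : (0 : ℝ) ≤ ((d : ℝ) + 1) * 2 ^ n * L := by positivity
    nlinarith
  -- deviation
  set τ : ℝ := Real.sqrt (2 * L * (C₁ * n)) with hτ
  have hτ0 : 0 ≤ τ := Real.sqrt_nonneg _
  have hτsq : τ ^ 2 / (2 * L) = C₁ * n := by
    rw [hτ, Real.sq_sqrt (by positivity)]
    field_simp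
  have hL2 : (L : ℝ) ≤ (2 ^ n) ^ (d + 1) := by
    have h1 : (idx (d + 1) n).card ≤ (2 ^ n) ^ d := 
      hSup.trans (Nat.pow_le_pow_left (by have := Nat.lt_two_pow_self (n := n); omega) d)
    have h2 : L ≤ (2 ^ n) ^ d * 2 ^ n := by
      rw [hLS]; exact Nat.mul_le_mul_right _ h1
    calc (L : ℝ) ≤ (((2 ^ n) ^ d * 2 ^ n : ℕ) : ℝ) := by exact_mod_cast h2
      _ = (2 ^ n) ^ (d + 1) := by push_cast; rw [pow_succ]
  have hmle : (m : ℝ) ≤ Real.exp (13 * D) * Real.exp (n * (D + 1)) := by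
    have h1 : (m : ℝ) = (13 * D) * (2 ^ n * L) := by rw [hm, hD]; push_cast; ring
    have h2 : 13 * D ≤ Real.exp (13 * D) := by linarith [Real.add_one_le_exp (13 * D)]
    have h3 : (2 : ℝ) ≤ Real.exp 1 := by linarith [Real.add_one_le_exp (1 : ℝ)]
    have h4 : (2 : ℝ) ^ n * L ≤ Real.exp (n * (D + 1)) := by
      calc (2 : ℝ) ^ n * L ≤ 2 ^ n * (2 ^ n) ^ (d + 1) := mul_le_mul_of_nonneg_left hL2 (by positivity)
        _ = (2 ^ (d + 2)) ^ n := by rw [← pow_mul, ← pow_mul, ← pow_add]; congr 1; ring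
        _ ≤ (Real.exp 1 ^ (d + 2)) ^ n := by
            apply pow_le_pow_left₀ (by positivity)
            exact pow_le_pow_left₀ (by norm_num) h3 _
        _ = Real.exp (n * (D + 1)) := by
            rw [← Real.exp_nat_mul, ← Real.exp_nat_mul, hD]
            congr 1
            push_cast
            ring
    rw [h1]
    exact mul_le_mul h2 h4 (by positivity) (Real.exp_pos _).le
  have hJ : 2 * ((m : ℝ) ^ (d + 1) * 4) ≤ Real.exp (τ ^ 2 / (2 * L)) := by
    rw [hτsq]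
    have h1 : (m : ℝ) ^ (d + 1) ≤ Real.exp (13 * D * D + n * ((D + 1) * D)) := by
      calc (m : ℝ) ^ (d + 1) ≤ (Real.exp (13 * D) * Real.exp (n * (D + 1))) ^ (d + 1) := 
            pow_le_pow_left₀ hm0'.le hmle _
        _ = Real.exp (13 * D * D + n * ((D + 1) * D)) := by
            rw [← Real.exp_add, ← Real.exp_nat_mul, hD]
            congr 1
            push_cast
            ring
    have h2 : (8 : ℝ) ≤ Real.exp 8 := by linarith [Real.add_one_le_exp (8 : ℝ)]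
    calc 2 * ((m : ℝ) ^ (d + 1) * 4) = 8 * (m : ℝ) ^ (d + 1) := by ring
      _ ≤ Real.exp 8 * Real.exp (13 * D * D + n * ((D + 1) * D)) := 
          mul_le_mul h2 h1 (by positivity) (Real.exp_pos _).le
      _ = Real.exp (8 + (13 * D * D + n * ((D + 1) * D))) := by rw [← Real.exp_add]
      _ ≤ Real.exp (C₁ * n) := by
          apply Real.exp_le_exp.mpr
          rw [hC₁]
          have hD0 : 0 ≤ 8 + 13 * D * D := by positivity
          nlinarith
  have hmain := lower_aux (d := d + 1) (n := n) hm0 hτ0 hLpos hmesh hJ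
  refine le_trans ?_ hmain
  -- final computation
  have hφ : ((2 : ℝ) ^ n * (n : ℝ) ^ (d + 1)) ^ (-(1 / 2) : ℝ) = 
      (Real.sqrt ((2 : ℝ) ^ n * (n : ℝ) ^ (d + 1)))⁻¹ := by
    rw [Real.rpow_neg (by positivity), Real.sqrt_eq_rpow]
  rw [hφ, ← mul_inv, one_div]
  have hq1 : 1 ≤ Real.sqrt ((2 : ℝ) ^ n * (n : ℝ) ^ (d + 1)) := by
    rw [Real.one_le_sqrt]
    exact one_le_mul_of_one_le_of_one_le (one_le_pow₀ (by norm_num)) (one_le_pow₀ hn1)
  have hτle : τ ≤ Real.sqrt (2 * 2 ^ d * C₁) * Real.sqrt ((2 : ℝ) ^ n * (n : ℝ) ^ (d + 1)) := by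
    rw [hτ, ← Real.sqrt_mul (by positivity)]
    apply Real.sqrt_le_sqrt
    have h1 : (L : ℝ) ≤ 2 ^ d * (n : ℝ) ^ d * 2 ^ n := by
      have h2 : (L : ℝ) ≤ ((n : ℝ) + 1) ^ d * 2 ^ n := by
        have : L ≤ (n + 1) ^ d * 2 ^ n := by rw [hLS]; exact Nat.mul_le_mul_right _ hSup
        exact_mod_cast this
      refine h2.trans ?_
      apply mul_le_mul_of_nonneg_right _ (by positivity)
      rw [← mul_pow]
      exact pow_le_pow_left₀ (by positivity) (by linarith) _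
    calc 2 * (L : ℝ) * (C₁ * n) ≤ 2 * (2 ^ d * (n : ℝ) ^ d * 2 ^ n) * (C₁ * n) := by
          apply mul_le_mul_of_nonneg_right _ (by positivity)
          linarith
      _ = 2 * 2 ^ d * C₁ * (2 ^ n * (n : ℝ) ^ (d + 1)) := by rw [pow_succ (n : ℝ) d]; ring
  apply inv_anti₀ (by positivity)
  have h0 : 0 ≤ Real.sqrt (2 * 2 ^ d * C₁) := Real.sqrt_nonneg _
  nlinarith

end Pool.Agent.Helper58.Vol
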