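import Pool.Agent.Helper58.Vol.Lower2

/-!
# The order of the volume of the sup-norm unit ball on the hyperbolic layer
-/

open MeasureTheory

namespace Pool.Agent.Helper58.Vol

theorem main (d : ℕ) (hd : 3 ≤ d) :
    ∃ c C : ℝ, 0 < c ∧ 0 < C ∧ ∀ n : ℕ, 1 ≤ n →
      c * ((2 : ℝ) ^ n * (n : ℝ) ^ d) ^ (-(1 / 2) : ℝ) ≤
          (volume (unitBall (layer d n))).toReal ^ (1 / (2 * ((layer d n).card : ℝ))) ∧
        (volume (unitBall (layer d n))).toReal ^ (1 / (2 * ((layer d n).card : ℝ))) ≤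
          C * ((2 : ℝ) ^ n * (n : ℝ) ^ d) ^ (-(1 / 2) : ℝ) := by
  obtain ⟨e, rfl⟩ : ∃ e, d = e + 2 := ⟨d - 2, by omega⟩
  obtain ⟨c, hc, hc'⟩ := lower (e + 1)
  obtain ⟨C, hC, hC'⟩ := upper e (by omega)
  exact ⟨c, C, hc, hC, fun n hn => ⟨hc' n hn, hC' n hn⟩⟩

end Pool.Agent.Helper58.Vol
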