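import Pool.Agent.Helper58.Vol.Symm

/-!
# Random signs: independence and moments
-/

open Finset BigOperators

namespace Pool.Agent.Helper58.Vol

variable {ι : Type*} [Fintype ι] [DecidableEq ι]

/-- exchange the coordinates outside `A` of two sign vectors -/
def mix (A : Set ι) [DecidablePred (· ∈ A)] (p : (ι → Bool) × (ι → Bool)) :
    (ι → Bool) × (ι → Bool) :=
  (fun i => if i ∈ A then p.1 i else p.2 i, fun i => if i ∈ A then p.2 i else p.1 i)

omit [Fintype ι] [DecidableEq ι] in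
lemma mix_mix (A : Set ι) [DecidablePred (· ∈ A)] (p : (ι → Bool) × (ι → Bool)) :
    mix A (mix A p) = p := by
  ext i <;> unfold mix <;> by_cases h : i ∈ A <;> simp [h]

/-- `mix` as an equivalence -/
def mixEquiv (A : Set ι) [DecidablePred (· ∈ A)] :
    ((ι → Bool) × (ι → Bool)) ≃ ((ι → Bool) × (ι → Bool)) where
  toFun := mix A
  invFun := mix A
  left_inv := mix_mix A
  right_inv := mix_mix A

lemma expect_mul_of_dependsOn {A : Set ι} {F G : (ι → Bool) → ℝ} (hF : DependsOn F A)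
    (hG : DependsOn G Aᶜ) : 𝔼 ε, F ε * G ε = (𝔼 ε, F ε) * 𝔼 ε, G ε := by
  classical
  rw [Fintype.expect_mul_expect, ← Finset.expect_product' univ univ (fun x y => F x * G y), 
    univ_product_univ]
  have h1 : 𝔼 p : (ι → Bool) × (ι → Bool), F p.1 * G p.2 = 
      𝔼 p : (ι → Bool) × (ι → Bool), F p.1 * G p.1 := by
    symm
    apply Fintype.expect_equiv (mixEquiv A)
    intro p
    show F p.1 * G p.1 = F (mix A p).1 * G (mix A p).2
    congr 1
    · apply hF
      intro i hi
      simp [mix, hi]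
    · apply hG
      intro i hi
      have : i ∉ A := hi
      simp [mix, this]
  rw [h1, ← univ_product_univ, Finset.expect_product' univ univ (fun x y => F x * G x)]
  simp

omit [Fintype ι] [DecidableEq ι] in
lemma DependsOn.prod {σ : Type*} (T : Finset σ) (F : σ → (ι → Bool) → ℝ) (A : Set ι)
    (h : ∀ s ∈ T, DependsOn (F s) A) : DependsOn (fun ε => ∏ s ∈ T, F s ε) A := by
  intro x y hxy
  exact Finset.prod_congr rfl (fun s hs => h s hs hxy)

lemma expect_prod_of_dependsOn {σ : Type*} [DecidableEq σ] (T : Finset σ) (A : σ → Set ι)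
    (F : σ → (ι → Bool) → ℝ) (hA : ∀ s ∈ T, ∀ t ∈ T, s ≠ t → Disjoint (A s) (A t)) 
    (hF : ∀ s ∈ T, DependsOn (F s) (A s)) : 
    𝔼 ε, ∏ s ∈ T, F s ε = ∏ s ∈ T, 𝔼 ε, F s ε := by
  induction T using Finset.induction_on with
  | empty => simp
  | insert s T hs ih =>
    simp only [Finset.prod_insert hs]
    rw [expect_mul_of_dependsOn (A := A s) (hF s (by simp)), ih]
    · intro s' hs' t ht
      exact hA s' (by simp [hs']) t (by simp [ht])
    · intro s' hs'
      exact hF s' (by simp [hs'])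
    · apply DependsOn.prod
      intro t ht x y hxy
      apply hF t (by simp [ht])
      intro i hi
      apply hxy
      have hne : s ≠ t := fun h => hs (h ▸ ht)
      exact fun h => Set.disjoint_left.mp (hA s (by simp) t (by simp [ht]) hne) h hi

lemma expect_eq_zero_of_flip (j : ι) (F : (ι → Bool) → ℝ) (h : ∀ ε, F (flip j ε) = - F ε) : 
    𝔼 ε, F ε = 0 := by
  have h1 : 𝔼 ε, F (flip j ε) = 𝔼 ε, F ε := Fintype.expect_equiv (flipEquiv j) _ _ (fun _ => rfl)
  simp only [h] at h1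
  rw [Finset.expect_neg_distrib] at h1
  linarith

omit [Fintype ι] in
lemma sg_flip (j : ι) (ε : ι → Bool) (i : ι) : sg (flip j ε i) = if i = j then - sg (ε i) else sg (ε i) := by
  unfold flip sg
  by_cases h : i = j
  · subst h
    by_cases h2 : ε i = true <;> simp [h2]
  · simp [h]

lemma sg_mul_self (b : Bool) : sg b * sg b = 1 := by
  unfold sg; split_ifs <;> norm_num

lemma expect_sg_mul (i j : ι) : 𝔼 ε : ι → Bool, sg (ε i) * sg (ε j) = if i = j then 1 else 0 := by
  split_ifs with h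
  · subst h
    simp [sg_mul_self]
  · apply expect_eq_zero_of_flip i
    intro ε
    rw [sg_flip, sg_flip]
    have : j ≠ i := fun h' => h h'.symm
    simp [this]

/-- Rademacher sum -/
def rad (b : ι → ℝ) (ε : ι → Bool) : ℝ := ∑ i, b i * sg (ε i)

lemma expect_rad (b : ι → ℝ) : 𝔼 ε, rad b ε = 0 := by
  unfold rad
  rw [Finset.expect_sum_comm]
  apply Finset.sum_eq_zero
  intro i _
  apply expect_eq_zero_of_flip i
  intro ε
  rw [sg_flip]
  simp

lemma expect_rad_mul (b b' : ι → ℝ) : 𝔼 ε, rad b ε * rad b' ε = ∑ i, b i * b' i := by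
  unfold rad
  simp_rw [Finset.sum_mul_sum]
  rw [Finset.expect_sum_comm]
  apply Finset.sum_congr rfl
  intro i _
  rw [Finset.expect_sum_comm]
  have : ∀ j, 𝔼 ε : ι → Bool, b i * sg (ε i) * (b' j * sg (ε j)) = if i = j then b i * b' j else 0 := by
    intro j
    have h1 : ∀ ε : ι → Bool, b i * sg (ε i) * (b' j * sg (ε j)) = (b i * b' j) * (sg (ε i) * sg (ε j)) := by
      intro ε; ring
    simp_rw [h1]
    rw [← Finset.mul_expect, expect_sg_mul]
    split_ifs <;> simp
  simp_rw [this]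
  simp

lemma expect_partial_rad (b : ι → ℝ) (s : Finset ι) : 
    𝔼 ε : ι → Bool, (∑ i ∈ s, b i * sg (ε i)) ^ 2 = ∑ i ∈ s, b i ^ 2 ∧ 
    𝔼 ε : ι → Bool, (∑ i ∈ s, b i * sg (ε i)) ^ 4 ≤ 3 * (∑ i ∈ s, b i ^ 2) ^ 2 := by
  induction s using Finset.induction_on with
  | empty => simp
  | insert j s hj ih =>
    obtain ⟨ih2, ih4⟩ := ih
    set Y : (ι → Bool) → ℝ := fun ε => ∑ i ∈ s, b i * sg (ε i) with hY
    have hYflip : ∀ ε, Y (flip j ε) = Y ε := by
      intro ε
      apply Finset.sum_congr rfl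
      intro i hi
      rw [sg_flip]
      have : i ≠ j := fun h => hj (h ▸ hi)
      simp [this]
    have hodd : ∀ k : ℕ, 𝔼 ε : ι → Bool, sg (ε j) * Y ε ^ k = 0 := by
      intro k
      apply expect_eq_zero_of_flip j
      intro ε
      rw [hYflip, sg_flip]
      simp
    have e2 : ∀ ε : ι → Bool, (∑ i ∈ insert j s, b i * sg (ε i)) ^ 2 = 
        b j ^ 2 + 2 * b j * (sg (ε j) * Y ε ^ 1) + Y ε ^ 2 := by
      intro ε
      rw [Finset.sum_insert hj]
      have := sg_mul_self (ε j)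
      simp only [hY]
      linear_combination (b j)^2 * this
    have e4 : ∀ ε : ι → Bool, (∑ i ∈ insert j s, b i * sg (ε i)) ^ 4 = 
        b j ^ 4 + 4 * b j ^ 3 * (sg (ε j) * Y ε ^ 1) + 6 * b j ^ 2 * Y ε ^ 2 + 
          4 * b j * (sg (ε j) * Y ε ^ 3) + Y ε ^ 4 := by
      intro ε
      rw [Finset.sum_insert hj]
      have := sg_mul_self (ε j)
      simp only [hY]
      set S := ∑ i ∈ s, b i * sg (ε i)
      set g := sg (ε j)
      linear_combination (b j ^ 4 * (g * g + 1) + 4 * b j ^ 3 * g * S + 6 * b j ^ 2 * S ^ 2) * this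
    simp_rw [e2, e4]
    rw [Finset.expect_add_distrib, Finset.expect_add_distrib, ← Finset.mul_expect, hodd, ih2, 
      Finset.expect_add_distrib, Finset.expect_add_distrib, Finset.expect_add_distrib, 
      Finset.expect_add_distrib, ← Finset.mul_expect, ← Finset.mul_expect, ← Finset.mul_expect, 
      hodd, hodd, ih2, Finset.sum_insert hj, Fintype.expect_const, Fintype.expect_const]
    constructor
    · ring
    · nlinarith [sq_nonneg (b j ^ 2)]

lemma expect_rad_pow_four (b : ι → ℝ) : 𝔼 ε, rad b ε ^ 4 ≤ 3 * (∑ i, b i ^ 2) ^ 2 := 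
  (expect_partial_rad b univ).2

lemma expect_rad_sq (b : ι → ℝ) : 𝔼 ε, rad b ε ^ 2 = ∑ i, b i ^ 2 := 
  (expect_partial_rad b univ).1

lemma abs_one_add_le (y : ℝ) : |1 + y| ≤ 1 + y + 2 * y ^ 4 := by
  rcases le_total 0 (1 + y) with h | h
  · rw [abs_of_nonneg h]; nlinarith [sq_nonneg (y^2)]
  · rw [abs_of_nonpos h]
    nlinarith [sq_nonneg (y^2), sq_nonneg (y + 1), sq_nonneg (y^2-1), mul_self_nonneg (y*y), sq_nonneg y]

lemma expect_abs_one_add_rad (b : ι → ℝ) : 
    𝔼 ε, |1 + rad b ε| ≤ 1 + 6 * (∑ i, b i ^ 2) ^ 2 := by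
  calc 𝔼 ε, |1 + rad b ε| ≤ 𝔼 ε, (1 + rad b ε + 2 * rad b ε ^ 4) := 
        Finset.expect_le_expect (fun ε _ => abs_one_add_le _)
    _ = 1 + 0 + 2 * 𝔼 ε, rad b ε ^ 4 := by
        rw [Finset.expect_add_distrib, Finset.expect_add_distrib, expect_rad, ← Finset.mul_expect, 
          Fintype.expect_const]
    _ ≤ 1 + 6 * (∑ i, b i ^ 2) ^ 2 := by
        have := expect_rad_pow_four b
        linarith

end Pool.Agent.Helper58.Vol
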