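import Pool.Agent.Helper58.Vol.Grid
import Pool.Agent.Helper58.Vol.Count
import Pool.Agent.Helper58.Vol.Rad

/-!
# Random blocks and random Riesz products: correlations
-/

open Finset BigOperators

namespace Pool.Agent.Helper58.Vol

variable {d n : ℕ}

/-- coefficient vector of `u_s(y)` -/
noncomputable def bv (s : Fin d → ℕ) (y : Fin d → ℝ) (i : layer d n × Fin 2) : ℝ :=
  if i.1.1 ∈ block s then
    (Real.sqrt (2 ^ n))⁻¹ * (if i.2 = 0 then (chr i.1.1 y).re else -(chr i.1.1 y).im) else 0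

lemma block_subset_layer {s : Fin d → ℕ} (hs : s ∈ idx d n) : block s ⊆ layer d n := by
  intro k hk
  exact mem_layer.mpr ⟨s, hs, hk⟩

lemma sum_bv_mul_real {s : Fin d → ℕ} (hs : s ∈ idx d n) (y y' : Fin d → ℝ) : 
    ∑ i : layer d n × Fin 2, bv s y i * bv s y' i = 
      (2 ^ n)⁻¹ * (∑ k ∈ block s, chr k y * (starRingEnd ℂ) (chr k y')).re := by
  have hsq : (Real.sqrt (2 ^ n))⁻¹ * (Real.sqrt (2 ^ n))⁻¹ = ((2 : ℝ) ^ n)⁻¹ := by
    rw [← mul_inv, Real.mul_self_sqrt (by positivity)]
  have h1 : ∀ k : layer d n, ∑ c : Fin 2, bv s y (k, c) * bv s y' (k, c) = 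
      if k.1 ∈ block s then (2 ^ n)⁻¹ * (chr k.1 y * (starRingEnd ℂ) (chr k.1 y')).re else 0 := by
    intro k
    rw [Fin.sum_univ_two]
    unfold bv
    by_cases h : k.1 ∈ block s
    · simp only [h, if_true, Fin.isValue, one_ne_zero, if_false, Complex.mul_re, Complex.conj_re, 
        Complex.conj_im]
      rw [← hsq]
      ring
    · simp [h]
  rw [Fintype.sum_prod_type]
  simp_rw [h1]
  rw [Finset.sum_coe_sort (layer d n) (fun k => if k ∈ block s then 
    (2 ^ n)⁻¹ * (chr k y * (starRingEnd ℂ) (chr k y')).re else 0), Finset.sum_ite_mem, 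
    Finset.inter_eq_right.mpr (block_subset_layer hs), Complex.re_sum, Finset.mul_sum]

lemma sum_block_real (s : Fin d → ℕ) (y y' : Fin d → ℝ) : 
    (((∑ k ∈ block s, chr k y * (starRingEnd ℂ) (chr k y')).re : ℝ) : ℂ) = 
      ∑ k ∈ block s, chr k y * (starRingEnd ℂ) (chr k y') := by
  rw [← Complex.conj_eq_iff_re, map_sum]
  apply Finset.sum_nbij' (fun k => -k) (fun k => -k)
  · intro k hk; exact neg_mem_block hk
  · intro k hk; exact neg_mem_block hk
  · intro k _; simp
  · intro k _; simp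
  · intro k _
    rw [map_mul, ← chr_neg, ← chr_neg]

/-- correlation of `u_s(y)` and `u_s(y')` -/
noncomputable def kap (n : ℕ) (s : Fin d → ℕ) (y y' : Fin d → ℝ) : ℝ :=
  (2 ^ n)⁻¹ * (∑ k ∈ block s, chr k y * (starRingEnd ℂ) (chr k y')).re

lemma kap_coe (s : Fin d → ℕ) (y y' : Fin d → ℝ) : 
    ((kap n s y y' : ℝ) : ℂ) = (2 ^ n)⁻¹ * ∑ k ∈ block s, chr k y * (starRingEnd ℂ) (chr k y') := by
  unfold kap
  rw [Complex.ofReal_mul, sum_block_real]
  push_cast
  rfl

lemma kap_self {s : Fin d → ℕ} (hs : s ∈ idx d n) (y : Fin d → ℝ) : kap n s y y = 1 := by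
  have h : ((kap n s y y : ℝ) : ℂ) = 1 := by
    rw [kap_coe]
    have : ∀ k ∈ block s, chr k y * (starRingEnd ℂ) (chr k y) = 1 := by
      intro k _
      rw [Complex.mul_conj', norm_chr]
      simp
    rw [Finset.sum_congr rfl this, Finset.sum_const, card_block, mem_idx.mp hs]
    simp
  exact_mod_cast h

/-- the random block polynomial `u_s(y)` -/
noncomputable def us (s : Fin d → ℕ) (y : Fin d → ℝ) (ε : layer d n × Fin 2 → Bool) : ℝ := rad (bv s y) ε

lemma expect_us (s : Fin d → ℕ) (y : Fin d → ℝ) : 𝔼 ε : layer d n × Fin 2 → Bool, us s y ε = 0 := 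
  expect_rad _

lemma expect_us_mul {s : Fin d → ℕ} (hs : s ∈ idx d n) (y y' : Fin d → ℝ) : 
    𝔼 ε : layer d n × Fin 2 → Bool, us s y ε * us s y' ε = kap n s y y' := by
  unfold us
  rw [expect_rad_mul, sum_bv_mul_real hs]
  rfl

/-- the coordinates belonging to the block `s` -/
def As (n : ℕ) (s : Fin d → ℕ) : Set (layer d n × Fin 2) := {i | i.1.1 ∈ block s}

lemma As_disjoint {s s' : Fin d → ℕ} (h : s ≠ s') : Disjoint (As n s) (As n s') := by
  rw [Set.disjoint_left]
  intro i hi hi'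
  exact h (block_disj hi hi')

lemma us_dependsOn (s : Fin d → ℕ) (y : Fin d → ℝ) : DependsOn (us (n := n) s y) (As n s) := by
  intro ε ε' h
  unfold us rad
  apply Finset.sum_congr rfl
  intro i _
  by_cases hi : i.1.1 ∈ block s
  · rw [h i hi]
  · unfold bv
    simp [hi]

lemma expect_abs_one_add_us {s : Fin d → ℕ} (hs : s ∈ idx d n) (δ : ℝ) (y : Fin d → ℝ) : 
    𝔼 ε : layer d n × Fin 2 → Bool, |1 + δ * us s y ε| ≤ 1 + 6 * δ ^ 4 := by
  have h := expect_abs_one_add_rad (fun i : layer d n × Fin 2 => δ * bv s y i)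
  have e1 : ∀ ε, rad (fun i : layer d n × Fin 2 => δ * bv s y i) ε = δ * us s y ε := by
    intro ε
    unfold us rad
    rw [Finset.mul_sum]
    apply Finset.sum_congr rfl
    intro i _
    ring
  have e2 : ∑ i : layer d n × Fin 2, (δ * bv s y i) ^ 2 = δ ^ 2 := by
    have h1 := sum_bv_mul_real hs y y
    have h2 := kap_self hs y
    unfold kap at h2
    rw [h2] at h1
    calc ∑ i : layer d n × Fin 2, (δ * bv s y i) ^ 2 = δ ^ 2 * ∑ i : layer d n × Fin 2, bv s y i * bv s y i := by
          rw [Finset.mul_sum]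
          apply Finset.sum_congr rfl
          intro i _
          ring
      _ = δ ^ 2 := by rw [h1, mul_one]
  simp_rw [e1, e2] at h
  refine h.trans (le_of_eq ?_)
  ring

/-- the random Riesz product -/
noncomputable def rp (δ : ℝ) (y : Fin d → ℝ) (ε : layer d n × Fin 2 → Bool) : ℝ :=
  ∏ s ∈ idx d n, (1 + δ * us s y ε)

lemma expect_abs_rp (δ : ℝ) (y : Fin d → ℝ) : 
    𝔼 ε : layer d n × Fin 2 → Bool, |rp δ y ε| ≤ (1 + 6 * δ ^ 4) ^ (idx d n).card := by
  unfold rp
  simp_rw [Finset.abs_prod]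
  rw [expect_prod_of_dependsOn (idx d n) (As n) (fun s ε => |1 + δ * us s y ε|)]
  · rw [← Finset.prod_const]
    apply Finset.prod_le_prod
    · intro s _
      exact Finset.expect_nonneg (fun ε _ => abs_nonneg _)
    · intro s hs
      exact expect_abs_one_add_us hs δ y
  · intro s _ t _ h
    exact As_disjoint h
  · intro s _ ε ε' h
    simp only
    rw [us_dependsOn s y h]

/-- product of the `u_s`, `s ∈ T` -/
noncomputable def uT (T : Finset (Fin d → ℕ)) (y : Fin d → ℝ) (ε : layer d n × Fin 2 → Bool) : ℝ :=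
  ∏ s ∈ T, us s y ε

lemma expect_uT_mul {T T' : Finset (Fin d → ℕ)} (hT : T ⊆ idx d n) (hT' : T' ⊆ idx d n) 
    (y y' : Fin d → ℝ) : 
    𝔼 ε : layer d n × Fin 2 → Bool, uT T y ε * uT T' y' ε = 
      if T = T' then ∏ s ∈ T, kap n s y y' else 0 := by
  set G : (Fin d → ℕ) → (layer d n × Fin 2 → Bool) → ℝ := fun s ε => 
    (if s ∈ T then us s y ε else 1) * (if s ∈ T' then us s y' ε else 1) with hG
  have h1 : ∀ ε, uT T y ε * uT T' y' ε = ∏ s ∈ idx d n, G s ε := by
    intro ε
    unfold uT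
    rw [hG]
    simp only
    rw [Finset.prod_mul_distrib, Finset.prod_ite_mem, Finset.prod_ite_mem, 
      Finset.inter_eq_right.mpr hT, Finset.inter_eq_right.mpr hT']
  simp_rw [h1]
  rw [expect_prod_of_dependsOn (idx d n) (As n) G]
  · split_ifs with h
    · subst h
      rw [← Finset.prod_subset hT]
      · apply Finset.prod_congr rfl
        intro s hs
        rw [hG]
        simp only [hs, if_true]
        exact expect_us_mul (hT hs) y y'
      · intro s _ hs
        rw [hG]
        simp [hs]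
    · have h2 : ∃ s ∈ idx d n, (s ∈ T ∧ s ∉ T') ∨ (s ∉ T ∧ s ∈ T') := by
        by_contra hcon
        push Not at hcon
        apply h
        ext s
        constructor
        · intro hs; exact (hcon s (hT hs)).1 hs
        · intro hs
          by_contra hs2
          exact (hcon s (hT' hs)).2 hs2 hs
      obtain ⟨s, hs, h3⟩ := h2
      apply Finset.prod_eq_zero hs
      rw [hG]
      rcases h3 with h3 | h3
      · simp only [h3.1, h3.2, if_true, if_false, mul_one]
        exact expect_us s y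
      · simp only [h3.1, h3.2, if_true, if_false, one_mul]
        exact expect_us s y'
  · intro s _ t _ h
    exact As_disjoint h
  · intro s _ ε ε' h
    rw [hG]
    simp only
    rw [us_dependsOn s y h, us_dependsOn s y' h]

end Pool.Agent.Helper58.Vol
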