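import Pool.Agent.Helper58.Vol.Riesz1

/-!
# Random Riesz products: second moments of the Fourier coefficients
-/

open Finset BigOperators

namespace Pool.Agent.Helper58.Vol

variable {d n : ℕ}

/-- subsets of the index set with at least two elements -/
noncomputable def big (d n : ℕ) : Finset (Finset (Fin d → ℕ)) := 
  (idx d n).powerset.filter (fun T => 2 ≤ T.card)

lemma big_subset {T : Finset (Fin d → ℕ)} (h : T ∈ big d n) : T ⊆ idx d n := by
  unfold big at h
  rw [Finset.mem_filter, Finset.mem_powerset] at h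
  exact h.1

/-- the part of the Riesz product of order at least two -/
noncomputable def wp (δ : ℝ) (y : Fin d → ℝ) (ε : layer d n × Fin 2 → Bool) : ℝ :=
  ∑ T ∈ big d n, δ ^ T.card * uT T y ε

lemma rp_eq (δ : ℝ) (y : Fin d → ℝ) (ε : layer d n × Fin 2 → Bool) : 
    rp δ y ε = 1 + δ * ∑ s ∈ idx d n, us s y ε + wp δ y ε := by
  unfold rp
  have h1 : ∏ s ∈ idx d n, (1 + δ * us s y ε) = ∑ T ∈ (idx d n).powerset, δ ^ T.card * uT T y ε := by
    rw [Finset.prod_one_add]
    apply Finset.sum_congr rfl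
    intro T _
    unfold uT
    rw [Finset.prod_mul_distrib, Finset.prod_const]
  rw [h1, ← Finset.sum_filter_add_sum_filter_not (idx d n).powerset (fun T => 2 ≤ T.card), add_comm]
  congr 1
  rw [← Finset.sum_filter_add_sum_filter_not _ (fun T => T.card = 0), Finset.filter_filter, 
    Finset.filter_filter]
  congr 1
  · have : (idx d n).powerset.filter (fun T => ¬ 2 ≤ T.card ∧ T.card = 0) = {∅} := by
      ext T
      rw [Finset.mem_filter, Finset.mem_singleton, Finset.mem_powerset]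
      constructor
      · intro h; exact Finset.card_eq_zero.mp h.2.2
      · rintro rfl; simp
    rw [this, Finset.sum_singleton]
    simp [uT]
  · have : (idx d n).powerset.filter (fun T => ¬ 2 ≤ T.card ∧ ¬ T.card = 0) = (idx d n).powersetCard 1 := by
      ext T
      rw [Finset.mem_filter, Finset.mem_powersetCard, Finset.mem_powerset]
      constructor
      · intro h; exact ⟨h.1, by omega⟩
      · intro h; exact ⟨h.1, by omega, by omega⟩
    rw [this, Finset.powersetCard_one, Finset.sum_map, Finset.mul_sum]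
    apply Finset.sum_congr rfl
    intro s _
    simp [uT]

lemma expect_wp_mul (δ : ℝ) (y y' : Fin d → ℝ) : 
    𝔼 ε : layer d n × Fin 2 → Bool, wp δ y ε * wp δ y' ε = 
      ∑ T ∈ big d n, (δ ^ 2) ^ T.card * ∏ s ∈ T, kap n s y y' := by
  unfold wp
  simp_rw [Finset.sum_mul_sum]
  rw [Finset.expect_sum_comm]
  apply Finset.sum_congr rfl
  intro T hT
  rw [Finset.expect_sum_comm, Finset.sum_eq_single T]
  · have : ∀ ε : layer d n × Fin 2 → Bool, δ ^ T.card * uT T y ε * (δ ^ T.card * uT T y' ε) = 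
        (δ ^ 2) ^ T.card * (uT T y ε * uT T y' ε) := by
      intro ε; ring
    simp_rw [this]
    rw [← Finset.mul_expect, expect_uT_mul (big_subset hT) (big_subset hT), if_pos rfl]
  · intro T' hT' hne
    have : ∀ ε : layer d n × Fin 2 → Bool, δ ^ T.card * uT T y ε * (δ ^ T'.card * uT T' y' ε) = 
        (δ ^ T.card * δ ^ T'.card) * (uT T y ε * uT T' y' ε) := by
      intro ε; ring
    simp_rw [this]
    rw [← Finset.mul_expect, expect_uT_mul (big_subset hT) (big_subset hT'), if_neg hne.symm, mul_zero]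
  · intro h; exact absurd hT h

/-- Fourier coefficient of a function on the grid -/
noncomputable def fc (M : ℕ) (W : (Fin d → ℝ) → ℝ) (k : Fin d → ℤ) : ℂ := 
  𝔼 x : Fin d → Fin M, (W (gpt M x) : ℂ) * (starRingEnd ℂ) (chr k (gpt M x))

/-- number of representations -/
noncomputable def nrep (M : ℤ) (T : Finset (Fin d → ℕ)) (k : Fin d → ℤ) : ℕ := 
  ((Fintype.piFinset (fun s : T => block s.1)).filter (fun l => ∀ j, M ∣ (∑ s, l s j) - k j)).card

lemma prod_kap_coe (T : Finset (Fin d → ℕ)) (y y' : Fin d → ℝ) : 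
    ((∏ s ∈ T, kap n s y y' : ℝ) : ℂ) = ((2 : ℂ) ^ n)⁻¹ ^ T.card * 
      ∑ l ∈ Fintype.piFinset (fun s : T => block s.1), 
        chr (∑ s, l s) y * (starRingEnd ℂ) (chr (∑ s, l s) y') := by
  rw [Complex.ofReal_prod, ← Finset.prod_coe_sort T (fun s => ((kap n s y y' : ℝ) : ℂ))]
  simp_rw [kap_coe]
  rw [Finset.prod_mul_distrib, Finset.prod_const, Finset.card_univ, Fintype.card_coe, 
    Finset.prod_univ_sum]
  congr 1
  apply Finset.sum_congr rfl
  intro l _
  rw [Finset.prod_mul_distrib, chr_sum, chr_sum, map_prod]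

lemma expect_norm_fc_sq (M : ℕ) (hM : 0 < M) (δ : ℝ) (k : Fin d → ℤ) : 
    𝔼 ε : layer d n × Fin 2 → Bool, ‖fc M (fun y => wp δ y ε) k‖ ^ 2 = 
      ∑ T ∈ big d n, (δ ^ 2) ^ T.card * (((2 : ℝ) ^ n)⁻¹ ^ T.card * nrep M T k) := by
  have hc : ((𝔼 ε : layer d n × Fin 2 → Bool, ‖fc M (fun y => wp δ y ε) k‖ ^ 2 : ℝ) : ℂ) = 
      ((∑ T ∈ big d n, (δ ^ 2) ^ T.card * (((2 : ℝ) ^ n)⁻¹ ^ T.card * nrep M T k) : ℝ) : ℂ) := by
    have h1 : ∀ ε : layer d n × Fin 2 → Bool, ((‖fc M (fun y => wp δ y ε) k‖ ^ 2 : ℝ) : ℂ) = 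
        𝔼 x : Fin d → Fin M, 𝔼 x' : Fin d → Fin M, 
          ((starRingEnd ℂ) (chr k (gpt M x)) * chr k (gpt M x')) * 
            ((wp δ (gpt M x) ε * wp δ (gpt M x') ε : ℝ) : ℂ) := by
      intro ε
      rw [Complex.ofReal_pow, ← Complex.mul_conj']
      unfold fc
      rw [map_expect (starRingEnd ℂ), Fintype.expect_mul_expect]
      apply Finset.expect_congr rfl
      intro x _
      apply Finset.expect_congr rfl
      intro x' _
      rw [map_mul, Complex.conj_conj, Complex.conj_ofReal]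
      push_cast
      ring
    rw [Complex.ofReal_expect]
    simp_rw [h1]
    rw [Finset.expect_comm]
    have h2 : ∀ x : Fin d → Fin M, 𝔼 ε : layer d n × Fin 2 → Bool, 𝔼 x' : Fin d → Fin M, 
        ((starRingEnd ℂ) (chr k (gpt M x)) * chr k (gpt M x')) * 
            ((wp δ (gpt M x) ε * wp δ (gpt M x') ε : ℝ) : ℂ) = 
        𝔼 x' : Fin d → Fin M, ((starRingEnd ℂ) (chr k (gpt M x)) * chr k (gpt M x')) * 
          ((∑ T ∈ big d n, (δ ^ 2) ^ T.card * ∏ s ∈ T, kap n s (gpt M x) (gpt M x') : ℝ) : ℂ) := by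
      intro x
      rw [Finset.expect_comm]
      apply Finset.expect_congr rfl
      intro x' _
      rw [← Finset.mul_expect, ← expect_wp_mul, Complex.ofReal_expect]
    simp_rw [h2]
    have h3 : ∀ x x' : Fin d → Fin M, ((starRingEnd ℂ) (chr k (gpt M x)) * chr k (gpt M x')) * 
          ((∑ T ∈ big d n, (δ ^ 2) ^ T.card * ∏ s ∈ T, kap n s (gpt M x) (gpt M x') : ℝ) : ℂ) = 
        ∑ T ∈ big d n, ((δ : ℂ) ^ 2) ^ T.card * (((2 : ℂ) ^ n)⁻¹ ^ T.card * 
          ∑ l ∈ Fintype.piFinset (fun s : T => block s.1), 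
            chr (∑ s, l s - k) (gpt M x) * (starRingEnd ℂ) (chr (∑ s, l s - k) (gpt M x'))) := by
      intro x x'
      rw [Complex.ofReal_sum, Finset.mul_sum]
      apply Finset.sum_congr rfl
      intro T _
      rw [Complex.ofReal_mul, prod_kap_coe]
      push_cast
      rw [Finset.mul_sum, Finset.mul_sum, Finset.mul_sum, Finset.mul_sum, Finset.mul_sum]
      apply Finset.sum_congr rfl
      intro l _
      rw [← chr_mul_conj, ← chr_mul_conj, map_mul, Complex.conj_conj]
      ring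
    simp_rw [h3]
    have h4 : 𝔼 x : Fin d → Fin M, 𝔼 x' : Fin d → Fin M, 
        ∑ T ∈ big d n, ((δ : ℂ) ^ 2) ^ T.card * (((2 : ℂ) ^ n)⁻¹ ^ T.card * 
          ∑ l ∈ Fintype.piFinset (fun s : T => block s.1), 
            chr (∑ s, l s - k) (gpt M x) * (starRingEnd ℂ) (chr (∑ s, l s - k) (gpt M x'))) = 
        ∑ T ∈ big d n, ((δ : ℂ) ^ 2) ^ T.card * (((2 : ℂ) ^ n)⁻¹ ^ T.card * 
          ∑ l ∈ Fintype.piFinset (fun s : T => block s.1), 
            ((𝔼 x : Fin d → Fin M, chr (∑ s, l s - k) (gpt M x)) * 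
              (starRingEnd ℂ) (𝔼 x' : Fin d → Fin M, chr (∑ s, l s - k) (gpt M x')))) := by
      simp_rw [Finset.expect_sum_comm, ← Finset.mul_expect, Finset.expect_sum_comm, map_expect, 
        Fintype.expect_mul_expect]
    rw [h4, Complex.ofReal_sum]
    apply Finset.sum_congr rfl
    intro T _
    push_cast
    congr 2
    simp_rw [expect_chr M hM]
    unfold nrep
    rw [Finset.card_filter]
    push_cast
    apply Finset.sum_congr rfl
    intro l _
    have e : (∀ j, (M : ℤ) ∣ (∑ s, l s - k) j) ↔ (∀ j, (M : ℤ) ∣ (∑ s, l s j) - k j) := by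
      simp [Finset.sum_apply]
    by_cases h : ∀ j, (M : ℤ) ∣ (∑ s, l s j) - k j
    · rw [if_pos (e.mpr h), if_pos h]; simp
    · rw [if_neg (fun h' => h (e.mp h')), if_neg h]; simp
  exact_mod_cast hc

end Pool.Agent.Helper58.Vol
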