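import Pool.Agent.Helper58.Vol.Comb

/-!
# The pairing bound for the sup-norm unit ball
-/

open Finset BigOperators

namespace Pool.Agent.Helper58.Vol

variable {d n : ℕ}

lemma sum_nrep_le (M : ℤ) (hM : 2 ^ (n + 1) ≤ M) {T : Finset (Fin d → ℕ)} (hT : T ∈ big d n) 
    {t : Fin d → ℕ} (ht : t ∈ idx d n) : 
    ∑ k ∈ block t, ((2 : ℝ) ^ n)⁻¹ ^ T.card * (nrep M T k : ℝ) ≤ (1 / 2 : ℝ) ^ Aex (mx T) t := by
  have hsub := big_subset hT
  have hne : T.Nonempty := by
    unfold big at hT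
    rw [Finset.mem_filter] at hT
    rw [← Finset.card_pos]
    omega
  have h1 := count_all T t n M hM (fun s hs => idx_le (hsub hs)) (idx_le ht) hne
  have h2 : ((block t ×ˢ Fintype.piFinset (fun s : T => block s.1)).filter 
      (fun p => ∀ j, M ∣ (∑ s, p.2 s j) - p.1 j)).card = ∑ k ∈ block t, nrep M T k := by
    unfold nrep
    rw [Finset.card_filter, Finset.sum_product]
    apply Finset.sum_congr rfl
    intro k _
    rw [Finset.card_filter]
  have h3 : ∑ s ∈ T, ∑ j, s j = n * T.card := by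
    rw [Finset.sum_congr rfl (fun s hs => mem_idx.mp (hsub hs)), Finset.sum_const, smul_eq_mul, mul_comm]
  rw [h2, h3] at h1
  have h4 : (∑ k ∈ block t, (nrep M T k : ℝ)) * 2 ^ Aex (mx T) t ≤ ((2 : ℝ) ^ n) ^ T.card := by
    rw [← pow_mul]
    have : ((∑ k ∈ block t, nrep M T k) * 2 ^ (∑ j, (T.sup (fun s => s j) - t j)) : ℕ) ≤ 
      ((2 ^ (n * T.card) : ℕ) : ℝ) := by exact_mod_cast h1
    push_cast at this
    exact this
  rw [← Finset.mul_sum, inv_pow, one_div, inv_pow, ← div_eq_inv_mul, div_le_iff₀ (by positivity), 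
    ← div_eq_inv_mul, le_div_iff₀ (by positivity)]
  exact h4

lemma sum_layer (f : (Fin d → ℤ) → ℝ) : ∑ k ∈ layer d n, f k = ∑ t ∈ idx d n, ∑ k ∈ block t, f k := by
  unfold layer
  rw [Finset.sum_biUnion]
  intro s _ s' _ hne
  show Disjoint (block s) (block s')
  rw [Finset.disjoint_left]
  intro k hk hk'
  exact hne (block_disj hk hk')

lemma exists_fc_bound (d : ℕ) : ∃ C : ℝ, 0 < C ∧ ∀ (n M : ℕ) (δ : ℝ), 1 ≤ n → 2 ^ (n + 1) ≤ M → 
    δ ^ 2 * (2 ^ (d + 4) * (n : ℝ) ^ d) ≤ 1 → 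
      𝔼 ε : layer (d + 2) n × Fin 2 → Bool, ∑ k ∈ layer (d + 2) n, ‖fc M (fun y => wp δ y ε) k‖ ^ 2 ≤ 
        (idx (d + 2) n).card * (C * (δ ^ 2) ^ 2) := by
  obtain ⟨C, hC, hCb⟩ := exists_comb d
  refine ⟨C, hC, ?_⟩
  intro n M δ hn hM hδ
  have hM0 : 0 < M := lt_of_lt_of_le (by positivity) hM
  have hM' : (2 : ℤ) ^ (n + 1) ≤ (M : ℤ) := by exact_mod_cast hM
  rw [Finset.expect_sum_comm]
  simp_rw [expect_norm_fc_sq M hM0]
  rw [sum_layer]
  calc ∑ t ∈ idx (d + 2) n, ∑ k ∈ block t, ∑ T ∈ big (d + 2) n, 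
        (δ ^ 2) ^ T.card * (((2 : ℝ) ^ n)⁻¹ ^ T.card * (nrep M T k : ℝ))
      = ∑ t ∈ idx (d + 2) n, ∑ T ∈ big (d + 2) n, (δ ^ 2) ^ T.card * 
          ∑ k ∈ block t, (((2 : ℝ) ^ n)⁻¹ ^ T.card * (nrep M T k : ℝ)) := by
        apply Finset.sum_congr rfl
        intro t _
        rw [Finset.sum_comm]
        apply Finset.sum_congr rfl
        intro T _
        rw [Finset.mul_sum]
    _ ≤ ∑ t ∈ idx (d + 2) n, ∑ T ∈ big (d + 2) n, (δ ^ 2) ^ T.card * (1 / 2 : ℝ) ^ Aex (mx T) t := by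
        apply Finset.sum_le_sum
        intro t ht
        apply Finset.sum_le_sum
        intro T hT
        apply mul_le_mul_of_nonneg_left (sum_nrep_le M hM' hT ht) (by positivity)
    _ ≤ ∑ t ∈ idx (d + 2) n, C * (δ ^ 2) ^ 2 := by
        apply Finset.sum_le_sum
        intro t ht
        exact hCb n (δ ^ 2) hn (by positivity) hδ t ht
    _ = (idx (d + 2) n).card * (C * (δ ^ 2) ^ 2) := by
        rw [Finset.sum_const, nsmul_eq_mul]

/-! ### Pairing -/

lemma trigPoly_eq (Λ : Finset (Fin d → ℤ)) (a : Λ × Fin 2 → ℝ) (y : Fin d → ℝ) : 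
    trigPoly Λ a y = ∑ k : Λ, ((a (k, 0) : ℂ) + (a (k, 1) : ℂ) * Complex.I) * chr k.1 y := rfl

/-- complex coefficient -/
noncomputable def cf {Λ : Finset (Fin d → ℤ)} (a : Λ × Fin 2 → ℝ) (k : Λ) : ℂ := 
  (a (k, 0) : ℂ) + (a (k, 1) : ℂ) * Complex.I

lemma expect_chr_mul_conj (M : ℕ) (hM : 2 ^ (n + 1) ≤ M) {k l : Fin d → ℤ} (hk : k ∈ layer d n) 
    (hl : l ∈ layer d n) : 
    𝔼 x : Fin d → Fin M, chr k (gpt M x) * (starRingEnd ℂ) (chr l (gpt M x)) = if k = l then 1 else 0 := by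
  have hM0 : 0 < M := lt_of_lt_of_le (by positivity) hM
  have hM' : (2 : ℤ) ^ (n + 1) ≤ (M : ℤ) := by exact_mod_cast hM
  simp_rw [chr_mul_conj]
  rw [expect_chr M hM0]
  by_cases h : k = l
  · subst h
    simp
  · rw [if_neg h, if_neg]
    intro h'
    apply h
    ext j
    exact eq_of_dvd_sub hM' (abs_lt_of_mem_layer hk j) (abs_lt_of_mem_layer hl j) (h' j)

lemma expect_trigPoly_mul_conj (M : ℕ) (hM : 2 ^ (n + 1) ≤ M) (a : layer d n × Fin 2 → ℝ) (k : layer d n) : 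
    𝔼 x : Fin d → Fin M, trigPoly (layer d n) a (gpt M x) * (starRingEnd ℂ) (chr k.1 (gpt M x)) = cf a k := by
  simp_rw [trigPoly_eq, Finset.sum_mul, mul_assoc]
  rw [Finset.expect_sum_comm]
  simp_rw [← Finset.mul_expect]
  rw [Finset.sum_eq_single k]
  · rw [expect_chr_mul_conj M hM k.2 k.2, if_pos rfl, mul_one]
    rfl
  · intro l _ hl
    rw [expect_chr_mul_conj M hM l.2 k.2, if_neg (fun h => hl (Subtype.ext h)), mul_zero]
  · intro h
    exact absurd (Finset.mem_univ k) h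

lemma norm_expect_le {α : Type*} [Fintype α] (f : α → ℂ) : ‖𝔼 x, f x‖ ≤ 𝔼 x, ‖f x‖ := by
  rw [Fintype.expect_eq_sum_div_card, Fintype.expect_eq_sum_div_card, norm_div, Complex.norm_natCast]
  apply div_le_div_of_nonneg_right (norm_sum_le _ _) (Nat.cast_nonneg _)

lemma sum_norm_cf_sq_le (M : ℕ) (hM : 2 ^ (n + 1) ≤ M) {a : layer d n × Fin 2 → ℝ} 
    (ha : a ∈ unitBall (layer d n)) : ∑ k : layer d n, ‖cf a k‖ ^ 2 ≤ 1 := by
  have hM0 : 0 < M := lt_of_lt_of_le (by positivity) hM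
  have : NeZero M := ⟨hM0.ne'⟩
  have h1 : ((∑ k : layer d n, ‖cf a k‖ ^ 2 : ℝ) : ℂ) = 
      𝔼 x : Fin d → Fin M, trigPoly (layer d n) a (gpt M x) * 
        (starRingEnd ℂ) (trigPoly (layer d n) a (gpt M x)) := by
    push_cast
    have h2 : ∀ x : Fin d → Fin M, trigPoly (layer d n) a (gpt M x) * 
        (starRingEnd ℂ) (trigPoly (layer d n) a (gpt M x)) = 
        ∑ k : layer d n, (starRingEnd ℂ) (cf a k) * 
          (trigPoly (layer d n) a (gpt M x) * (starRingEnd ℂ) (chr k.1 (gpt M x))) := by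
      intro x
      conv_lhs => rw [trigPoly_eq (layer d n) a (gpt M x), map_sum, Finset.mul_sum]
      apply Finset.sum_congr rfl
      intro k _
      rw [map_mul, trigPoly_eq]
      unfold cf
      ring
    simp_rw [h2]
    rw [Finset.expect_sum_comm]
    apply Finset.sum_congr rfl
    intro k _
    rw [← Finset.mul_expect, expect_trigPoly_mul_conj M hM, mul_comm, Complex.mul_conj']
  have h3 : ‖((∑ k : layer d n, ‖cf a k‖ ^ 2 : ℝ) : ℂ)‖ ≤ 1 := by
    rw [h1]
    refine (norm_expect_le _).trans ?_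
    calc 𝔼 x : Fin d → Fin M, ‖trigPoly (layer d n) a (gpt M x) * 
        (starRingEnd ℂ) (trigPoly (layer d n) a (gpt M x))‖ ≤ 𝔼 x : Fin d → Fin M, (1 : ℝ) := by
          apply Finset.expect_le_expect
          intro x _
          rw [norm_mul, Complex.norm_conj]
          have := ha (gpt M x)
          exact mul_le_one₀ this (norm_nonneg _) this
      _ = 1 := Fintype.expect_const 1
  rw [Complex.norm_real, Real.norm_eq_abs, abs_of_nonneg (Finset.sum_nonneg (fun _ _ => by positivity))] at h3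
  exact h3

/-- the full random polynomial (normalised) -/
noncomputable def uu (y : Fin d → ℝ) (ε : layer d n × Fin 2 → Bool) : ℝ := ∑ s ∈ idx d n, us s y ε

/-- the majorant of the pairing -/
noncomputable def hh (M : ℕ) (δ : ℝ) (ε : layer d n × Fin 2 → Bool) : ℝ := 
  δ⁻¹ * ((𝔼 x : Fin d → Fin M, |rp δ (gpt M x) ε|) + 1 + 
    (1 + ∑ k ∈ layer d n, ‖fc M (fun y => wp δ y ε) k‖ ^ 2) / 2)

lemma expect_pair_le (M : ℕ) (hM : 2 ^ (n + 1) ≤ M) {δ : ℝ} (hδ : 0 < δ) {a : layer d n × Fin 2 → ℝ} 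
    (ha : a ∈ unitBall (layer d n)) (ε : layer d n × Fin 2 → Bool) : 
    ‖𝔼 x : Fin d → Fin M, trigPoly (layer d n) a (gpt M x) * (uu (gpt M x) ε : ℂ)‖ ≤ hh M δ ε := by
  have hM0 : 0 < M := lt_of_lt_of_le (by positivity) hM
  have : NeZero M := ⟨hM0.ne'⟩
  set f : (Fin d → Fin M) → ℂ := fun x => trigPoly (layer d n) a (gpt M x) with hf
  have hf1 : ∀ x, ‖f x‖ ≤ 1 := fun x => ha (gpt M x)
  have h1 : (δ : ℂ) * 𝔼 x, f x * (uu (gpt M x) ε : ℂ) = 
      𝔼 x, f x * ((rp δ (gpt M x) ε - 1 : ℝ) : ℂ) - 𝔼 x, f x * (wp δ (gpt M x) ε : ℂ) := by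
    rw [Finset.mul_expect, ← Finset.expect_sub_distrib]
    apply Finset.expect_congr rfl
    intro x _
    rw [rp_eq]
    unfold uu
    push_cast
    ring
  have h2 : ‖𝔼 x, f x * ((rp δ (gpt M x) ε - 1 : ℝ) : ℂ)‖ ≤ 
      (𝔼 x : Fin d → Fin M, |rp δ (gpt M x) ε|) + 1 := by
    refine (norm_expect_le _).trans ?_
    calc 𝔼 x, ‖f x * ((rp δ (gpt M x) ε - 1 : ℝ) : ℂ)‖ 
        ≤ 𝔼 x : Fin d → Fin M, (|rp δ (gpt M x) ε| + 1) := by
          apply Finset.expect_le_expect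
          intro x _
          rw [norm_mul, Complex.norm_real, Real.norm_eq_abs]
          have h3 : |rp δ (gpt M x) ε - 1| ≤ |rp δ (gpt M x) ε| + 1 := by
            have := abs_sub (rp δ (gpt M x) ε) 1
            simpa using this
          calc ‖f x‖ * |rp δ (gpt M x) ε - 1| ≤ 1 * |rp δ (gpt M x) ε - 1| := 
                mul_le_mul_of_nonneg_right (hf1 x) (abs_nonneg _)
            _ ≤ _ := by rw [one_mul]; exact h3
      _ = (𝔼 x : Fin d → Fin M, |rp δ (gpt M x) ε|) + 1 := by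
          rw [Finset.expect_add_distrib, Fintype.expect_const]
  have h4 : 𝔼 x, f x * (wp δ (gpt M x) ε : ℂ) = 
      ∑ k : layer d n, cf a k * (starRingEnd ℂ) (fc M (fun y => wp δ y ε) k.1) := by
    have h5 : ∀ x, f x * (wp δ (gpt M x) ε : ℂ) = 
        ∑ k : layer d n, cf a k * (chr k.1 (gpt M x) * (wp δ (gpt M x) ε : ℂ)) := by
      intro x
      rw [hf]
      simp only
      rw [trigPoly_eq, Finset.sum_mul]
      apply Finset.sum_congr rfl
      intro k _
      unfold cf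
      ring
    simp_rw [h5]
    rw [Finset.expect_sum_comm]
    apply Finset.sum_congr rfl
    intro k _
    rw [← Finset.mul_expect]
    congr 1
    unfold fc
    rw [map_expect (starRingEnd ℂ)]
    apply Finset.expect_congr rfl
    intro x _
    rw [map_mul, Complex.conj_conj, Complex.conj_ofReal, mul_comm]
  have h6 : ‖𝔼 x, f x * (wp δ (gpt M x) ε : ℂ)‖ ≤ 
      (1 + ∑ k ∈ layer d n, ‖fc M (fun y => wp δ y ε) k‖ ^ 2) / 2 := by
    rw [h4]
    refine (norm_sum_le _ _).trans ?_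
    have h7 : ∀ k : layer d n, ‖cf a k * (starRingEnd ℂ) (fc M (fun y => wp δ y ε) k.1)‖ ≤ 
        (‖cf a k‖ ^ 2 + ‖fc M (fun y => wp δ y ε) k.1‖ ^ 2) / 2 := by
      intro k
      rw [norm_mul, Complex.norm_conj]
      nlinarith [sq_nonneg (‖cf a k‖ - ‖fc M (fun y => wp δ y ε) k.1‖)]
    refine (Finset.sum_le_sum (fun k _ => h7 k)).trans ?_
    rw [← Finset.sum_div, Finset.sum_add_distrib, 
      Finset.sum_coe_sort (layer d n) (fun k => ‖fc M (fun y => wp δ y ε) k‖ ^ 2)]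
    have := sum_norm_cf_sq_le M hM ha
    linarith
  have h8 : δ * ‖𝔼 x, f x * (uu (gpt M x) ε : ℂ)‖ ≤ (𝔼 x : Fin d → Fin M, |rp δ (gpt M x) ε|) + 1 + 
    (1 + ∑ k ∈ layer d n, ‖fc M (fun y => wp δ y ε) k‖ ^ 2) / 2 := by
    have h9 : δ * ‖𝔼 x, f x * (uu (gpt M x) ε : ℂ)‖ = ‖(δ : ℂ) * 𝔼 x, f x * (uu (gpt M x) ε : ℂ)‖ := by
      rw [norm_mul, Complex.norm_real, Real.norm_eq_abs, abs_of_pos hδ]
    rw [h9, h1]
    refine (norm_sub_le _ _).trans ?_
    linarith
  unfold hh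
  rw [← div_eq_inv_mul, le_div_iff₀ hδ, mul_comm]
  exact h8

/-- quarter turn of the signs -/
def turn {Λ : Finset (Fin d → ℤ)} (ε : Λ × Fin 2 → Bool) : Λ × Fin 2 → Bool := 
  fun i => if i.2 = 0 then ε (i.1, 1) else ! ε (i.1, 0)

/-- inverse quarter turn of the signs -/
def turn' {Λ : Finset (Fin d → ℤ)} (ε : Λ × Fin 2 → Bool) : Λ × Fin 2 → Bool := 
  fun i => if i.2 = 0 then ! ε (i.1, 1) else ε (i.1, 0)

/-- quarter turn as an equivalence -/
def turnEquiv (Λ : Finset (Fin d → ℤ)) : (Λ × Fin 2 → Bool) ≃ (Λ × Fin 2 → Bool) where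
  toFun := turn
  invFun := turn'
  left_inv := by
    intro ε
    ext ⟨k, c⟩
    fin_cases c <;> simp [turn, turn']
  right_inv := by
    intro ε
    ext ⟨k, c⟩
    fin_cases c <;> simp [turn, turn']

lemma sum_bv (y : Fin d → ℝ) (i : layer d n × Fin 2) : 
    ∑ s ∈ idx d n, bv s y i = 
      (Real.sqrt (2 ^ n))⁻¹ * (if i.2 = 0 then (chr i.1.1 y).re else -(chr i.1.1 y).im) := by
  obtain ⟨s, hs, hk⟩ := mem_layer.mp i.1.2
  rw [Finset.sum_eq_single s]
  · unfold bv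
    rw [if_pos hk]
  · intro s' _ hne
    unfold bv
    rw [if_neg]
    intro h
    exact hne (block_disj h hk)
  · intro h; exact absurd hs h

lemma sqrt_mul_uu (y : Fin d → ℝ) (ε : layer d n × Fin 2 → Bool) : 
    Real.sqrt (2 ^ n) * uu y ε = 
      ∑ k : layer d n, ((chr k.1 y).re * sg (ε (k, 0)) - (chr k.1 y).im * sg (ε (k, 1))) := by
  have hs : Real.sqrt (2 ^ n) ≠ 0 := by positivity
  unfold uu us rad
  rw [Finset.sum_comm]
  simp_rw [← Finset.sum_mul, sum_bv]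
  rw [Fintype.sum_prod_type, Finset.mul_sum]
  apply Finset.sum_congr rfl
  intro k _
  rw [Fin.sum_univ_two]
  simp only [Fin.isValue, if_true, one_ne_zero, if_false]
  field_simp
  ring

lemma pairing_le (M : ℕ) (hM : 2 ^ (n + 1) ≤ M) {δ : ℝ} (hδ : 0 < δ) {a : layer d n × Fin 2 → ℝ} 
    (ha : a ∈ unitBall (layer d n)) (ε : layer d n × Fin 2 → Bool) : 
    ∑ i, a i * sg (ε i) ≤ Real.sqrt (2 ^ n) * (hh M δ ε + hh M δ (turn ε)) := by
  set f : (Fin d → Fin M) → ℂ := fun x => trigPoly (layer d n) a (gpt M x) with hf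
  -- the random polynomial
  set g : (Fin d → ℝ) → ℂ := fun y => 
    ∑ k : layer d n, ((sg (ε (k, 0)) : ℂ) + (sg (ε (k, 1)) : ℂ) * Complex.I) * chr k.1 y with hg
  have hg1 : ∀ y, g y = (Real.sqrt (2 ^ n) : ℂ) * ((uu y ε : ℂ) + (uu y (turn ε) : ℂ) * Complex.I) := by
    intro y
    have e1 := sqrt_mul_uu y ε
    have e2 := sqrt_mul_uu y (turn ε)
    apply Complex.ext
    · have : ((Real.sqrt (2 ^ n) : ℂ) * ((uu y ε : ℂ) + (uu y (turn ε) : ℂ) * Complex.I)).re = 
          Real.sqrt (2 ^ n) * uu y ε := by simp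
      rw [this, e1, hg]
      simp only
      rw [Complex.re_sum]
      apply Finset.sum_congr rfl
      intro k _
      simp
      ring
    · have : ((Real.sqrt (2 ^ n) : ℂ) * ((uu y ε : ℂ) + (uu y (turn ε) : ℂ) * Complex.I)).im = 
          Real.sqrt (2 ^ n) * uu y (turn ε) := by simp
      rw [this, e2, hg]
      simp only
      rw [Complex.im_sum]
      apply Finset.sum_congr rfl
      intro k _
      have e3 : sg (turn ε (k, 0)) = sg (ε (k, 1)) := by simp [turn]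
      have e4 : sg (turn ε (k, 1)) = - sg (ε (k, 0)) := by
        unfold turn sg
        cases ε (k, 0) <;> simp
      rw [e3, e4]
      simp
      ring
  have h1 : ∑ i, a i * sg (ε i) = (𝔼 x, f x * (starRingEnd ℂ) (g (gpt M x))).re := by
    have h2 : 𝔼 x, f x * (starRingEnd ℂ) (g (gpt M x)) = 
        ∑ k : layer d n, ((sg (ε (k, 0)) : ℂ) - (sg (ε (k, 1)) : ℂ) * Complex.I) * cf a k := by
      have h3 : ∀ x, f x * (starRingEnd ℂ) (g (gpt M x)) = 
          ∑ k : layer d n, ((sg (ε (k, 0)) : ℂ) - (sg (ε (k, 1)) : ℂ) * Complex.I) * 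
            (f x * (starRingEnd ℂ) (chr k.1 (gpt M x))) := by
        intro x
        rw [hg]
        simp only
        rw [map_sum, Finset.mul_sum]
        apply Finset.sum_congr rfl
        intro k _
        rw [map_mul, map_add, map_mul, Complex.conj_I, Complex.conj_ofReal, Complex.conj_ofReal]
        ring
      simp_rw [h3]
      rw [Finset.expect_sum_comm]
      apply Finset.sum_congr rfl
      intro k _
      rw [← Finset.mul_expect, hf, expect_trigPoly_mul_conj M hM]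
    rw [h2, Complex.re_sum, Fintype.sum_prod_type]
    apply Finset.sum_congr rfl
    intro k _
    rw [Fin.sum_univ_two]
    unfold cf
    simp
    ring
  have h4 : 𝔼 x, f x * (starRingEnd ℂ) (g (gpt M x)) = 
      (Real.sqrt (2 ^ n) : ℂ) * ((𝔼 x, f x * (uu (gpt M x) ε : ℂ)) - 
        (𝔼 x, f x * (uu (gpt M x) (turn ε) : ℂ)) * Complex.I) := by
    rw [Finset.expect_mul, ← Finset.expect_sub_distrib, Finset.mul_expect]
    apply Finset.expect_congr rfl
    intro x _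
    rw [hg1, map_mul, map_add, map_mul, Complex.conj_I, Complex.conj_ofReal, Complex.conj_ofReal, 
      Complex.conj_ofReal]
    ring
  rw [h1]
  refine (Complex.re_le_norm _).trans ?_
  rw [h4, norm_mul, Complex.norm_real, Real.norm_eq_abs, abs_of_nonneg (Real.sqrt_nonneg _)]
  apply mul_le_mul_of_nonneg_left _ (Real.sqrt_nonneg _)
  refine (norm_sub_le _ _).trans ?_
  rw [norm_mul, Complex.norm_I, mul_one]
  exact add_le_add (expect_pair_le M hM hδ ha ε) (expect_pair_le M hM hδ ha (turn ε))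

end Pool.Agent.Helper58.Vol
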