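import Mathlib

/-!
# Volume and random signs

For a compact convex set `K ⊂ ℝ^ι` and a function `H` on sign vectors with `⟨a, ε⟩ ≤ H ε` for all
`a ∈ K` we show `vol K ≤ (2 ρ)^N / N!`, where `ρ` is the average of `H` and `N = |ι|`.
-/

open MeasureTheory Set

namespace Pool.Agent.Helper58.Vol

variable {ι : Type*} [Fintype ι] [DecidableEq ι]

lemma vol_le_of_sections {A B : Set (ι → ℝ)} (hA : MeasurableSet A) (hB : MeasurableSet B) (j : ι)
    (h : ∀ x : ι → ℝ, volume {t : ℝ | Function.update x j t ∈ A} ≤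
      volume {t : ℝ | Function.update x j t ∈ B}) : volume A ≤ volume B := by
  rw [← lintegral_indicator_one hA, ← lintegral_indicator_one hB]
  refine lintegral_le_of_lmarginal_le (μ := fun _ => volume) {j} (measurable_one.indicator hA) 
    (measurable_one.indicator hB) ?_
  rw [lmarginal_singleton, lmarginal_singleton]
  intro x
  have hu : Measurable (fun t : ℝ => Function.update x j t) := measurable_update x
  have e : ∀ C : Set (ι → ℝ), MeasurableSet C → 
      ∫⁻ t : ℝ, C.indicator (1 : (ι → ℝ) → ENNReal) (Function.update x j t) = 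
        volume {t : ℝ | Function.update x j t ∈ C} := by
    intro C hC
    have hm : MeasurableSet {t : ℝ | Function.update x j t ∈ C} := hu hC
    rw [← lintegral_indicator_one hm]
    rfl
  simp only
  rw [e A hA, e B hB]
  exact h x

/-- reflection in the `j`-th coordinate -/
def refl (j : ι) (x : ι → ℝ) : ι → ℝ := Function.update x j (-x j)

omit [Fintype ι] in
lemma refl_apply (j : ι) (x : ι → ℝ) (i : ι) : refl j x i = if i = j then -x i else x i := by
  unfold refl
  by_cases h : i = j
  · subst h; simp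
  · simp [h]

omit [Fintype ι] in
lemma refl_continuous (j : ι) : Continuous (refl j : (ι → ℝ) → (ι → ℝ)) := by
  apply continuous_pi
  intro i
  simp only [refl_apply]
  split_ifs <;> fun_prop

/-- Minkowski symmetrisation in the `j`-th coordinate direction -/
def symm (j : ι) (A : Set (ι → ℝ)) : Set (ι → ℝ) :=
  (fun p : (ι → ℝ) × (ι → ℝ) => (1/2 : ℝ) • (p.1 + refl j p.2)) '' (A ×ˢ A)

omit [Fintype ι] in
lemma symm_isCompact (j : ι) {A : Set (ι → ℝ)} (hA : IsCompact A) : IsCompact (symm j A) := by
  apply (hA.prod hA).image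
  have h : Continuous (fun p : (ι → ℝ) × (ι → ℝ) => p.1 + refl j p.2) :=
    continuous_fst.add ((refl_continuous j).comp continuous_snd)
  exact h.const_smul (1/2 : ℝ)

omit [Fintype ι] in
lemma symm_convex (j : ι) {A : Set (ι → ℝ)} (hA : Convex ℝ A) : Convex ℝ (symm j A) := by
  rintro _ ⟨⟨a, b⟩, ⟨ha, hb⟩, rfl⟩ _ ⟨⟨a', b'⟩, ⟨ha', hb'⟩, rfl⟩ s t hs ht hst
  refine ⟨(s • a + t • a', s • b + t • b'), ⟨hA ha ha' hs ht hst, hA hb hb' hs ht hst⟩, ?_⟩
  ext i
  simp only [Pi.smul_apply, Pi.add_apply, refl_apply, smul_eq_mul]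
  split_ifs <;> ring

lemma vol_le_symm (j : ι) {A : Set (ι → ℝ)} (hA : IsCompact A) (hAc : Convex ℝ A) : 
    volume A ≤ volume (symm j A) := by
  apply vol_le_of_sections hA.measurableSet (symm_isCompact j hA).measurableSet j
  intro x
  set T : Set ℝ := {t : ℝ | Function.update x j t ∈ A} with hT
  have hu : Continuous (fun t : ℝ => Function.update x j t) := continuous_const.update j continuous_id
  have hTclosed : IsClosed T := hA.isClosed.preimage hu
  have hTb : BddAbove T ∧ BddBelow T := by
    obtain ⟨M, hM⟩ := hA.isBounded.exists_norm_le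
    have hb : ∀ t ∈ T, |t| ≤ M := by
      intro t ht
      have h1 := hM _ ht
      have h2 := norm_le_pi_norm (Function.update x j t) j
      simp only [Function.update_self, Real.norm_eq_abs] at h2
      exact h2.trans h1
    exact ⟨⟨M, fun t ht => (abs_le.mp (hb t ht)).2⟩, ⟨-M, fun t ht => (abs_le.mp (hb t ht)).1⟩⟩
  rcases T.eq_empty_or_nonempty with hemp | hne
  · rw [hemp]; simp
  have hp : sInf T ∈ T := hTclosed.csInf_mem hne hTb.2
  have hq : sSup T ∈ T := hTclosed.csSup_mem hne hTb.1
  set p := sInf T with hpdef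
  set q := sSup T with hqdef
  have hsub : T ⊆ Icc p q := fun t ht => ⟨csInf_le hTb.2 ht, le_csSup hTb.1 ht⟩
  have hpq : p ≤ q := (hsub hp).2
  have hconv : Icc p q ⊆ T := by
    have hTconv : Convex ℝ T := by
      intro s hs t ht a b ha hb hab
      have : Function.update x j (a • s + b • t) = a • Function.update x j s + b • Function.update x j t := by
        ext i
        by_cases h : i = j
        · subst h; simp
        · simp only [h, ne_eq, not_false_eq_true, Function.update_of_ne, Pi.add_apply, Pi.smul_apply, smul_eq_mul]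
          rw [← add_mul, hab, one_mul]
      show Function.update x j (a • s + b • t) ∈ A
      rw [this]
      exact hAc hs ht ha hb hab
    rw [← segment_eq_Icc hpq]
    exact hTconv.segment_subset hp hq
  calc volume T ≤ volume (Icc p q) := measure_mono hsub
    _ = ENNReal.ofReal (q - p) := Real.volume_Icc
    _ = volume (Icc (-((q - p)/2)) ((q - p)/2)) := by rw [Real.volume_Icc]; congr 1; ring
    _ ≤ volume {t : ℝ | Function.update x j t ∈ symm j A} := by
      apply measure_mono
      intro τ hτ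
      have h1 : (p + q)/2 + τ ∈ T := hconv ⟨by linarith [hτ.1], by linarith [hτ.2]⟩
      have h2 : (p + q)/2 - τ ∈ T := hconv ⟨by linarith [hτ.2], by linarith [hτ.1]⟩
      refine ⟨(Function.update x j ((p + q)/2 + τ), Function.update x j ((p + q)/2 - τ)), ⟨h1, h2⟩, ?_⟩
      ext i
      simp only [Pi.smul_apply, Pi.add_apply, refl_apply, smul_eq_mul]
      by_cases h : i = j
      · subst h; simp; ring
      · simp [h]; ring

/-- signs -/
def sg (b : Bool) : ℝ := if b then 1 else -1

/-- flip the `j`-th sign -/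
def flip (j : ι) (ε : ι → Bool) : ι → Bool := Function.update ε j (!ε j)

omit [Fintype ι] in
lemma flip_flip (j : ι) (ε : ι → Bool) : flip j (flip j ε) = ε := by
  ext i
  unfold flip
  by_cases h : i = j
  · subst h; simp
  · simp [h]

/-- flipping is an involution -/
def flipEquiv (j : ι) : (ι → Bool) ≃ (ι → Bool) where
  toFun := flip j
  invFun := flip j
  left_inv := flip_flip j
  right_inv := flip_flip j

omit [Fintype ι] in
lemma flip_comm (i j : ι) (ε : ι → Bool) : flip i (flip j ε) = flip j (flip i ε) := by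
  by_cases hij : i = j
  · subst hij; rfl
  · ext l
    unfold flip
    by_cases h : l = j
    · subst h
      have : l ≠ i := fun h => hij h.symm
      simp [this]
    · by_cases h' : l = i
      · subst h'; simp [h]
      · simp [h, h']

lemma pairing_refl (j : ι) (b : ι → ℝ) (ε : ι → Bool) : 
    ∑ i, refl j b i * sg (ε i) = ∑ i, b i * sg (flip j ε i) := by
  apply Finset.sum_congr rfl
  intro i _
  rw [refl_apply]
  unfold flip sg
  by_cases h : i = j
  · subst h
    by_cases h2 : ε i = true <;> simp [h2]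
  · simp [h]

lemma symm_step {K : Set (ι → ℝ)} (hK : IsCompact K) (hKc : Convex ℝ K) (H : (ι → Bool) → ℝ)
    (hH : ∀ a ∈ K, ∀ ε : ι → Bool, ∑ i, a i * sg (ε i) ≤ H ε) (s : Finset ι) :
    ∃ (K' : Set (ι → ℝ)) (H' : (ι → Bool) → ℝ), IsCompact K' ∧ Convex ℝ K' ∧ volume K ≤ volume K' ∧
      (∀ a ∈ K', ∀ ε : ι → Bool, ∑ i, a i * sg (ε i) ≤ H' ε) ∧ ∑ ε, H' ε = ∑ ε, H ε ∧ 
      ∀ i ∈ s, ∀ ε, H' (flip i ε) = H' ε := by
  induction s using Finset.induction_on with
  | empty => exact ⟨K, H, hK, hKc, le_rfl, hH, rfl, by simp⟩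
  | insert j s _ ih =>
    obtain ⟨K', H', h1, h2, h3, h4, h5, h6⟩ := ih
    refine ⟨symm j K', fun ε => (H' ε + H' (flip j ε)) / 2, symm_isCompact j h1, symm_convex j h2,
      h3.trans (vol_le_symm j h1 h2), ?_, ?_, ?_⟩
    · rintro _ ⟨⟨a, b⟩, ⟨ha, hb⟩, rfl⟩ ε
      have e : ∑ i, ((1/2 : ℝ) • (a + refl j b)) i * sg (ε i) = 
          (∑ i, a i * sg (ε i) + ∑ i, b i * sg (flip j ε i)) / 2 := by
        rw [← pairing_refl, ← Finset.sum_add_distrib, Finset.sum_div]
        apply Finset.sum_congr rfl
        intro i _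
        simp only [Pi.smul_apply, Pi.add_apply, smul_eq_mul]
        ring
      show ∑ i, ((1/2 : ℝ) • (a + refl j b)) i * sg (ε i) ≤ _
      rw [e]
      have := h4 a ha ε
      have := h4 b hb (flip j ε)
      linarith
    · rw [← h5, ← Finset.sum_div, Finset.sum_add_distrib]
      have : ∑ ε, H' (flip j ε) = ∑ ε, H' ε := (flipEquiv j).sum_comp H'
      rw [this]
      ring
    · intro i hi ε
      simp only
      rw [Finset.mem_insert] at hi
      rcases hi with rfl | hi
      · rw [flip_flip]; ring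
      · rw [flip_comm j i, h6 i hi, h6 i hi]

omit [Fintype ι] in
lemma const_of_flip {H : (ι → Bool) → ℝ} (h : ∀ i ε, H (flip i ε) = H ε) (s : Finset ι) :
    ∀ ε ε' : ι → Bool, (∀ i ∉ s, ε i = ε' i) → H ε = H ε' := by
  induction s using Finset.induction_on with
  | empty => 
    intro ε ε' he
    congr 1
    ext i
    rw [he i (by simp)]
  | insert j s _ ih =>
    intro ε ε' he
    by_cases hj : ε j = ε' j
    · apply ih
      intro i hi
      by_cases hij : i = j
      · subst hij; exact hj
      · exact he i (by simp [hij, hi])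
    · rw [← h j ε]
      apply ih
      intro i hi
      by_cases hij : i = j
      · subst hij
        unfold flip
        simp only [Function.update_self]
        revert hj
        cases ε i <;> cases ε' i <;> simp
      · unfold flip
        rw [Function.update_of_ne hij]
        exact he i (by simp [hij, hi])

/-- **Volume of a compact convex set via random signs.** -/
theorem volume_le_of_signs [Nonempty ι] {K : Set (ι → ℝ)} (hK : IsCompact K) (hKc : Convex ℝ K) 
    (H : (ι → Bool) → ℝ) (hH : ∀ a ∈ K, ∀ ε : ι → Bool, ∑ i, a i * sg (ε i) ≤ H ε) 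
    {ρ : ℝ} (hρ0 : 0 ≤ ρ) (hρ : ∑ ε, H ε ≤ ρ * 2 ^ Fintype.card ι) :
    (volume K).toReal ≤ (2 * ρ) ^ Fintype.card ι / (Fintype.card ι).factorial := by
  obtain ⟨K', H', h1, h2, h3, h4, h5, h6⟩ := symm_step hK hKc H hH Finset.univ
  have hconst : ∀ ε ε', H' ε = H' ε' := fun ε ε' => 
    const_of_flip (fun i ε => h6 i (Finset.mem_univ i) ε) Finset.univ ε ε' (by simp)
  have hle : ∀ ε, H' ε ≤ ρ := by
    intro ε
    have h7 : ∑ ε', H' ε' = 2 ^ Fintype.card ι * H' ε := by
      rw [Finset.sum_congr rfl (fun ε' _ => hconst ε' ε), Finset.sum_const, Finset.card_univ,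
        nsmul_eq_mul]
      simp
    rw [h5] at h7
    rw [h7, mul_comm] at hρ
    exact le_of_mul_le_mul_right hρ (by positivity)
  have hsub : K' ⊆ {x : ι → ℝ | (∑ i, |x i| ^ (1:ℝ)) ^ (1 / (1:ℝ)) ≤ ρ} := by
    intro a ha
    have := (h4 a ha (fun i => decide (0 ≤ a i))).trans (hle _)
    simp only [Real.rpow_one, ne_eq, one_ne_zero, not_false_eq_true, div_self, mem_ofPred_eq]
    refine le_trans (le_of_eq ?_) this
    apply Finset.sum_congr rfl
    intro i _
    unfold sg
    by_cases h : 0 ≤ a i
    · simp [h, abs_of_nonneg h]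
    · simp [h, abs_of_neg (not_le.mp h)]
  have hvol := volume_sum_rpow_le ι (le_refl (1:ℝ)) ρ
  have hfin : volume {x : ι → ℝ | (∑ i, |x i| ^ (1:ℝ)) ^ (1 / (1:ℝ)) ≤ ρ} = 
      ENNReal.ofReal ((2 * ρ) ^ Fintype.card ι / (Fintype.card ι).factorial) := by
    rw [hvol, ← ENNReal.ofReal_pow hρ0, ← ENNReal.ofReal_mul (by positivity)]
    congr 1
    have e1 : Real.Gamma (1 / 1 + 1) = 1 := by norm_num [Real.Gamma_two]
    have e2 : Real.Gamma ((Fintype.card ι : ℝ) / 1 + 1) = (Fintype.card ι).factorial := by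
      rw [div_one, Real.Gamma_nat_eq_factorial]
    rw [e1, e2]
    simp only [mul_one, mul_pow]
    ring
  have h8 : volume K ≤ ENNReal.ofReal ((2 * ρ) ^ Fintype.card ι / (Fintype.card ι).factorial) := 
    (h3.trans (measure_mono hsub)).trans_eq hfin
  exact ENNReal.toReal_le_of_le_ofReal (by positivity) h8

end Pool.Agent.Helper58.Vol
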