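import Pool.Agent.Helper58.Vol.Riesz3

/-!
# The upper bound for the volume
-/

open Finset BigOperators MeasureTheory

namespace Pool.Agent.Helper58.Vol

variable {d n : ℕ}

lemma trigPoly_comb (Λ : Finset (Fin d → ℤ)) (a b : Λ × Fin 2 → ℝ) (s t : ℝ) (y : Fin d → ℝ) : 
    trigPoly Λ (s • a + t • b) y = s * trigPoly Λ a y + t * trigPoly Λ b y := by
  simp_rw [trigPoly_eq, Finset.mul_sum]
  rw [← Finset.sum_add_distrib]
  apply Finset.sum_congr rfl
  intro k _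
  simp only [Pi.add_apply, Pi.smul_apply, smul_eq_mul]
  push_cast
  ring

lemma convex_unitBall (Λ : Finset (Fin d → ℤ)) : Convex ℝ (unitBall Λ) := by
  intro a ha b hb s t hs ht hst x
  rw [trigPoly_comb]
  calc ‖(s : ℂ) * trigPoly Λ a x + t * trigPoly Λ b x‖ 
      ≤ ‖(s : ℂ) * trigPoly Λ a x‖ + ‖(t : ℂ) * trigPoly Λ b x‖ := norm_add_le _ _
    _ = s * ‖trigPoly Λ a x‖ + t * ‖trigPoly Λ b x‖ := by
        rw [norm_mul, norm_mul, Complex.norm_real, Complex.norm_real, Real.norm_eq_abs, 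
          Real.norm_eq_abs, abs_of_nonneg hs, abs_of_nonneg ht]
    _ ≤ s * 1 + t * 1 := add_le_add (mul_le_mul_of_nonneg_left (ha x) hs) 
        (mul_le_mul_of_nonneg_left (hb x) ht)
    _ = 1 := by linarith

lemma isClosed_unitBall (Λ : Finset (Fin d → ℤ)) : IsClosed (unitBall Λ) := by
  have : unitBall Λ = ⋂ x : Fin d → ℝ, {a | ‖trigPoly Λ a x‖ ≤ 1} := by
    ext a
    simp [unitBall]
  rw [this]
  apply isClosed_iInter
  intro x
  apply isClosed_le _ continuous_const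
  apply Continuous.norm
  unfold trigPoly
  fun_prop

lemma abs_le_norm_cf (a : layer d n × Fin 2 → ℝ) (i : layer d n × Fin 2) : |a i| ≤ ‖cf a i.1‖ := by
  obtain ⟨k, c⟩ := i
  unfold cf
  fin_cases c
  · have := Complex.abs_re_le_norm ((a (k, 0) : ℂ) + (a (k, 1) : ℂ) * Complex.I)
    simpa using this
  · have := Complex.abs_im_le_norm ((a (k, 0) : ℂ) + (a (k, 1) : ℂ) * Complex.I)
    simpa using this

lemma abs_le_one_of_mem {a : layer d n × Fin 2 → ℝ} (ha : a ∈ unitBall (layer d n)) 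
    (i : layer d n × Fin 2) : |a i| ≤ 1 := by
  have h1 := sum_norm_cf_sq_le (2 ^ (n + 1)) le_rfl ha
  have h2 : ‖cf a i.1‖ ^ 2 ≤ 1 := 
    le_trans (Finset.single_le_sum (f := fun k => ‖cf a k‖ ^ 2) (fun _ _ => by positivity) 
      (Finset.mem_univ i.1)) h1
  have h3 : ‖cf a i.1‖ ≤ 1 := by
    have := norm_nonneg (cf a i.1)
    nlinarith
  exact (abs_le_norm_cf a i).trans h3

lemma isCompact_unitBall : IsCompact (unitBall (layer d n)) := by
  apply Metric.isCompact_of_isClosed_isBounded (isClosed_unitBall _)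
  rw [isBounded_iff_forall_norm_le]
  refine ⟨1, fun a ha => ?_⟩
  rw [pi_norm_le_iff_of_nonneg zero_le_one]
  intro i
  exact abs_le_one_of_mem ha i

lemma expect_hh_le (d : ℕ) : ∃ C : ℝ, 0 < C ∧ ∀ (n M : ℕ) (δ : ℝ), 1 ≤ n → 2 ^ (n + 1) ≤ M → 0 < δ →
    δ ^ 2 * (2 ^ (d + 4) * (n : ℝ) ^ d) ≤ 1 → δ ^ 4 * (idx (d + 2) n).card ≤ 1 → 
      𝔼 ε : layer (d + 2) n × Fin 2 → Bool, hh M δ ε ≤ C * δ⁻¹ := by
  obtain ⟨C, hC, hCb⟩ := exists_fc_bound d
  refine ⟨Real.exp 6 + 1 + (1 + C) / 2, by positivity, ?_⟩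
  intro n M δ hn hM hδ0 hδ hcard
  have hM0 : 0 < M := lt_of_lt_of_le (by positivity) hM
  have : NeZero M := ⟨hM0.ne'⟩
  have h1 := hCb n M δ hn hM hδ
  unfold hh
  rw [← Finset.mul_expect, mul_comm]
  apply mul_le_mul_of_nonneg_right _ (by positivity)
  rw [Finset.expect_add_distrib, Finset.expect_add_distrib, Fintype.expect_const, 
    ← Finset.expect_div, Finset.expect_add_distrib, Fintype.expect_const]
  have h2 : 𝔼 ε : layer (d + 2) n × Fin 2 → Bool, 𝔼 x : Fin (d + 2) → Fin M, |rp δ (gpt M x) ε| ≤ Real.exp 6 := by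
    rw [Finset.expect_comm]
    calc 𝔼 x : Fin (d + 2) → Fin M, 𝔼 ε : layer (d + 2) n × Fin 2 → Bool, |rp δ (gpt M x) ε| 
        ≤ 𝔼 x : Fin (d + 2) → Fin M, Real.exp 6 := by
          apply Finset.expect_le_expect
          intro x _
          refine (expect_abs_rp δ (gpt M x)).trans ?_
          calc (1 + 6 * δ ^ 4) ^ (idx (d + 2) n).card ≤ (Real.exp (6 * δ ^ 4)) ^ (idx (d + 2) n).card := by
                apply pow_le_pow_left₀ (by positivity)
                linarith [Real.add_one_le_exp (6 * δ ^ 4)]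
            _ = Real.exp ((idx (d + 2) n).card * (6 * δ ^ 4)) := by rw [Real.exp_nat_mul]
            _ ≤ Real.exp 6 := by
                apply Real.exp_le_exp.mpr
                nlinarith
      _ = Real.exp 6 := Fintype.expect_const _
  have h3 : (idx (d + 2) n).card * (C * (δ ^ 2) ^ 2) ≤ C := by
    have : ((idx (d + 2) n).card : ℝ) * (C * (δ ^ 2) ^ 2) = C * (δ ^ 4 * (idx (d + 2) n).card) := by ring
    rw [this]
    nlinarith
  linarith

/-- lower bound on the factorial -/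
lemma inv_factorial_le (N : ℕ) : (1 : ℝ) / N.factorial ≤ (Real.exp 1 / N) ^ N := by
  rcases Nat.eq_zero_or_pos N with h | h
  · subst h; simp
  have h1 := Real.pow_div_factorial_le_exp (N : ℝ) (by positivity) N
  have h2 : Real.exp (N : ℝ) = Real.exp 1 ^ N := by rw [← Real.exp_nat_mul, mul_one]
  rw [h2] at h1
  have hN : (0 : ℝ) < N := by exact_mod_cast h
  rw [div_pow, le_div_iff₀ (by positivity)]
  calc 1 / (N.factorial : ℝ) * (N : ℝ) ^ N = (N : ℝ) ^ N / N.factorial := by ring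
    _ ≤ _ := h1

lemma card_idx_lower (d n : ℕ) : ((n : ℝ) / (d + 1)) ^ (d + 1) ≤ (idx (d + 2) n).card := by
  have h1 := le_card_idx (d + 1) n
  have h2 : (n : ℝ) / (d + 1) ≤ ((n / (d + 1) + 1 : ℕ) : ℝ) := by
    have h3 : n < (d + 1) * (n / (d + 1) + 1) := by
      have := Nat.div_add_mod n (d + 1)
      have := Nat.mod_lt n (by omega : 0 < d + 1)
      rw [mul_add]
      omega
    rw [div_le_iff₀ (by positivity)]
    have h4 : (n : ℝ) ≤ ((d + 1) * (n / (d + 1) + 1) : ℕ) := by exact_mod_cast h3.le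
    refine h4.trans (le_of_eq ?_)
    push_cast
    ring
  calc ((n : ℝ) / (d + 1)) ^ (d + 1) ≤ ((n / (d + 1) + 1 : ℕ) : ℝ) ^ (d + 1) := 
        pow_le_pow_left₀ (by positivity) h2 _
    _ ≤ _ := by exact_mod_cast h1

theorem upper (d : ℕ) (hd : 1 ≤ d) : ∃ C : ℝ, 0 < C ∧ ∀ n : ℕ, 1 ≤ n → 
    (volume (unitBall (layer (d + 2) n))).toReal ^ (1 / (2 * ((layer (d + 2) n).card : ℝ))) ≤ 
      C * ((2 : ℝ) ^ n * (n : ℝ) ^ (d + 2)) ^ (-(1 / 2) : ℝ) := by
  obtain ⟨C, hC, hCb⟩ := expect_hh_le d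
  refine ⟨Real.exp 1 * 2 * C * Real.sqrt (2 ^ (d + 4)) * ((d : ℝ) + 1) ^ (d + 1), by positivity, ?_⟩
  intro n hn
  have hn0 : (0 : ℝ) < n := by exact_mod_cast hn
  have hn1 : (1 : ℝ) ≤ n := by exact_mod_cast hn
  set L := (layer (d + 2) n).card with hL
  set S := (idx (d + 2) n).card with hS
  have hLS : L = S * 2 ^ n := card_layer (d + 2) n
  have hSlow : ((n : ℝ) / (d + 1)) ^ (d + 1) ≤ S := card_idx_lower d n
  have hSpos : (0 : ℝ) < S := lt_of_lt_of_le (by positivity) hSlow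
  have hLpos : (0 : ℝ) < L := by rw [hLS]; push_cast; positivity
  -- parameters
  set q : ℝ := 2 ^ (d + 4) * (n : ℝ) ^ d with hq
  have hq0 : 0 < q := by positivity
  set δ : ℝ := (Real.sqrt q)⁻¹ with hδ
  have hδ0 : 0 < δ := by positivity
  have hδ2 : δ ^ 2 = q⁻¹ := by rw [hδ, inv_pow, Real.sq_sqrt hq0.le]
  have h1 : δ ^ 2 * (2 ^ (d + 4) * (n : ℝ) ^ d) ≤ 1 := by
    rw [hδ2, ← hq, inv_mul_cancel₀ hq0.ne']
  have h2 : δ ^ 4 * S ≤ 1 := by
    have e : δ ^ 4 = (q ^ 2)⁻¹ := by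
      have : δ ^ 4 = (δ ^ 2) ^ 2 := by ring
      rw [this, hδ2, inv_pow]
    rw [e, ← div_eq_inv_mul, div_le_one (by positivity)]
    have h3 : (S : ℝ) ≤ ((n : ℝ) + 1) ^ (d + 1) := by
      have := card_idx_le (d + 1) n
      rw [hS]
      exact_mod_cast this
    calc (S : ℝ) ≤ ((n : ℝ) + 1) ^ (d + 1) := h3
      _ ≤ (2 * n) ^ (d + 1) := pow_le_pow_left₀ (by positivity) (by linarith) _
      _ = 2 ^ (d + 1) * (n : ℝ) ^ (d + 1) := mul_pow _ _ _
      _ ≤ 2 ^ (d + 4 + (d + 4)) * (n : ℝ) ^ (d + d) := by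
          apply mul_le_mul _ _ (by positivity) (by positivity)
          · exact pow_le_pow_right₀ (by norm_num) (by omega)
          · exact pow_le_pow_right₀ hn1 (by omega)
      _ = q ^ 2 := by rw [hq, pow_add, pow_add]; ring
  have h3 := hCb n (2 ^ (n + 1)) δ hn le_rfl hδ0 h1 h2
  -- the average
  set ρ : ℝ := Real.sqrt (2 ^ n) * (2 * (C * δ⁻¹)) with hρ
  have hρ0 : 0 < ρ := by positivity
  have : Nonempty (layer (d + 2) n × Fin 2) := by
    have hpos : 0 < L := by exact_mod_cast hLpos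
    obtain ⟨k, hk⟩ := Finset.card_pos.mp hpos
    exact ⟨(⟨k, hk⟩, 0)⟩
  have hN : Fintype.card (layer (d + 2) n × Fin 2) = 2 * L := by
    rw [Fintype.card_prod, Fintype.card_coe, Fintype.card_fin, mul_comm]
  have hsum : ∑ ε : layer (d + 2) n × Fin 2 → Bool, 
      Real.sqrt (2 ^ n) * (hh (2 ^ (n + 1)) δ ε + hh (2 ^ (n + 1)) δ (turn ε)) ≤ 
        ρ * 2 ^ Fintype.card (layer (d + 2) n × Fin 2) := by
    have e1 : ∑ ε : layer (d + 2) n × Fin 2 → Bool, hh (2 ^ (n + 1)) δ (turn ε) = 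
        ∑ ε : layer (d + 2) n × Fin 2 → Bool, hh (2 ^ (n + 1)) δ ε := 
      (turnEquiv (layer (d + 2) n)).sum_comp (hh (2 ^ (n + 1)) δ)
    have e2 : ∑ ε : layer (d + 2) n × Fin 2 → Bool, hh (2 ^ (n + 1)) δ ε = 
        2 ^ Fintype.card (layer (d + 2) n × Fin 2) * 
          𝔼 ε : layer (d + 2) n × Fin 2 → Bool, hh (2 ^ (n + 1)) δ ε := by
      rw [← Fintype.card_mul_expect]
      simp
    rw [← Finset.mul_sum, Finset.sum_add_distrib, e1, e2, hρ]
    have h4 : (0 : ℝ) < 2 ^ Fintype.card (layer (d + 2) n × Fin 2) := by positivity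
    have h5 := mul_le_mul_of_nonneg_left h3 h4.le
    calc Real.sqrt (2 ^ n) * (2 ^ Fintype.card (layer (d + 2) n × Fin 2) * 
          (𝔼 ε : layer (d + 2) n × Fin 2 → Bool, hh (2 ^ (n + 1)) δ ε) + 
          2 ^ Fintype.card (layer (d + 2) n × Fin 2) * 
          (𝔼 ε : layer (d + 2) n × Fin 2 → Bool, hh (2 ^ (n + 1)) δ ε)) 
        ≤ Real.sqrt (2 ^ n) * (2 ^ Fintype.card (layer (d + 2) n × Fin 2) * (C * δ⁻¹) + 
          2 ^ Fintype.card (layer (d + 2) n × Fin 2) * (C * δ⁻¹)) := 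
          mul_le_mul_of_nonneg_left (add_le_add h5 h5) (Real.sqrt_nonneg _)
      _ = Real.sqrt (2 ^ n) * (2 * (C * δ⁻¹)) * 2 ^ Fintype.card (layer (d + 2) n × Fin 2) := by ring
  have hvol := volume_le_of_signs isCompact_unitBall (convex_unitBall (layer (d + 2) n)) 
    (fun ε => Real.sqrt (2 ^ n) * (hh (2 ^ (n + 1)) δ ε + hh (2 ^ (n + 1)) δ (turn ε))) 
    (fun a ha ε => pairing_le (2 ^ (n + 1)) le_rfl hδ0 ha ε) hρ0.le hsum
  rw [hN] at hvol
  have hvol2 : (volume (unitBall (layer (d + 2) n))).toReal ≤ 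
      (2 * ρ * (Real.exp 1 / (2 * L : ℕ))) ^ (2 * L) := by
    refine hvol.trans ?_
    rw [mul_pow (2 * ρ), div_eq_mul_one_div]
    exact mul_le_mul_of_nonneg_left (inv_factorial_le _) (by positivity)
  have hexp : (1 / (2 * (L : ℝ))) = ((2 * L : ℕ) : ℝ)⁻¹ := by push_cast; rw [one_div]
  have hne : 2 * L ≠ 0 := by
    have : 0 < L := by exact_mod_cast hLpos
    omega
  have hroot : (volume (unitBall (layer (d + 2) n))).toReal ^ (1 / (2 * (L : ℝ))) ≤ 
      2 * ρ * (Real.exp 1 / (2 * L : ℕ)) := by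
    rw [hexp]
    calc (volume (unitBall (layer (d + 2) n))).toReal ^ (((2 * L : ℕ) : ℝ)⁻¹) 
        ≤ ((2 * ρ * (Real.exp 1 / (2 * L : ℕ))) ^ (2 * L)) ^ (((2 * L : ℕ) : ℝ)⁻¹) := 
          Real.rpow_le_rpow ENNReal.toReal_nonneg hvol2 (by positivity)
      _ = 2 * ρ * (Real.exp 1 / (2 * L : ℕ)) := 
          Real.pow_rpow_inv_natCast (by positivity) hne
  refine hroot.trans ?_
  -- final computation
  have hφ : ((2 : ℝ) ^ n * (n : ℝ) ^ (d + 2)) ^ (-(1 / 2) : ℝ) = 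
      (Real.sqrt ((2 : ℝ) ^ n * (n : ℝ) ^ (d + 2)))⁻¹ := by
    rw [Real.rpow_neg (by positivity), Real.sqrt_eq_rpow]
  rw [hφ]
  have hδinv : δ⁻¹ = Real.sqrt (2 ^ (d + 4)) * Real.sqrt ((n : ℝ) ^ d) := by
    rw [hδ, inv_inv, hq, Real.sqrt_mul (by positivity)]
  have e5 : 2 * ρ * (Real.exp 1 / (2 * L : ℕ)) = 
      Real.exp 1 * 2 * C * Real.sqrt (2 ^ (d + 4)) * 
        (Real.sqrt (2 ^ n) * Real.sqrt ((n : ℝ) ^ d) / L) := by
    rw [hρ, hδinv]
    push_cast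
    field_simp
  rw [e5, mul_assoc (Real.exp 1 * 2 * C * Real.sqrt (2 ^ (d + 4)))]
  apply mul_le_mul_of_nonneg_left _ (by positivity)
  have hLlow : 2 ^ n * ((n : ℝ) / (d + 1)) ^ (d + 1) ≤ L := by
    rw [hLS]
    push_cast
    nlinarith [pow_pos (two_pos (α := ℝ)) n]
  calc Real.sqrt (2 ^ n) * Real.sqrt ((n : ℝ) ^ d) / L 
      ≤ Real.sqrt (2 ^ n) * Real.sqrt ((n : ℝ) ^ d) / (2 ^ n * ((n : ℝ) / (d + 1)) ^ (d + 1)) := by
        apply div_le_div_of_nonneg_left (by positivity) (by positivity) hLlow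
    _ = ((d : ℝ) + 1) ^ (d + 1) * (Real.sqrt ((2 : ℝ) ^ n * (n : ℝ) ^ (d + 2)))⁻¹ := by
        have e6 : Real.sqrt ((2 : ℝ) ^ n * (n : ℝ) ^ (d + 2)) = 
            Real.sqrt (2 ^ n) * (Real.sqrt ((n : ℝ) ^ d) * n) := by
          rw [Real.sqrt_mul (by positivity), pow_add, Real.sqrt_mul (by positivity), 
            Real.sqrt_sq hn0.le]
        rw [e6, div_pow]
        have s1 : Real.sqrt ((2 : ℝ) ^ n) ^ 2 = 2 ^ n := Real.sq_sqrt (by positivity)
        have s2 : Real.sqrt ((n : ℝ) ^ d) ^ 2 = (n : ℝ) ^ d := Real.sq_sqrt (by positivity)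
        have s3 : 0 < Real.sqrt ((2 : ℝ) ^ n) := by positivity
        have s4 : 0 < Real.sqrt ((n : ℝ) ^ d) := by positivity
        rw [pow_succ (n : ℝ) d]
        generalize Real.sqrt ((2 : ℝ) ^ n) = A at s1 s3 ⊢
        generalize Real.sqrt ((n : ℝ) ^ d) = B at s2 s4 ⊢
        rw [← s1, ← s2]
        field_simp

end Pool.Agent.Helper58.Vol
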